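import Pool.Agent.TH625.HP.Defs

/-! Matrix algebra for the symmetric space of positive definite symmetric matrices of determinant
one. -/

set_option autoImplicit false

open Matrix
open scoped Matrix.Norms.Elementwise

noncomputable section

namespace Pool.Agent.TH625.HP

/-- unipotent matrix -/
def Um (x v1 v2 : ℝ) : Mat3 := !![1, x, v1; 0, 1, v2; 0, 0, 1]

/-- its inverse -/
def Ui (x v1 v2 : ℝ) : Mat3 := !![1, -x, x * v2 - v1; 0, 1, -v2; 0, 0, 1]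

/-- diagonal matrix -/
def Dm (y s : ℝ) : Mat3 := !![s * y, 0, 0; 0, s / y, 0; 0, 0, 1 / s ^ 2]

/-- its inverse -/
def Di (y s : ℝ) : Mat3 := !![1 / (s * y), 0, 0; 0, y / s, 0; 0, 0, s ^ 2]

/-- the point with coordinates `(x, y, s, v)` -/
def Pm (x y s v1 v2 : ℝ) : Mat3 :=
  !![s * (y + x ^ 2 / y) + v1 ^ 2 / s ^ 2, s * (x / y) + v1 * v2 / s ^ 2, v1 / s ^ 2;
     s * (x / y) + v1 * v2 / s ^ 2, s / y + v2 ^ 2 / s ^ 2, v2 / s ^ 2;
     v1 / s ^ 2, v2 / s ^ 2, 1 / s ^ 2]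

lemma Um_Ui (x v1 v2 : ℝ) : Um x v1 v2 * Ui x v1 v2 = 1 := by
  ext i j
  fin_cases i <;> fin_cases j <;> simp [Um, Ui, Matrix.mul_apply, Fin.sum_univ_three]
  ring

lemma Ui_Um (x v1 v2 : ℝ) : Ui x v1 v2 * Um x v1 v2 = 1 := by
  ext i j
  fin_cases i <;> fin_cases j <;> simp [Um, Ui, Matrix.mul_apply, Fin.sum_univ_three]
  ring

lemma Dm_Di {y s : ℝ} (hy : y ≠ 0) (hs : s ≠ 0) : Dm y s * Di y s = 1 := by
  ext i j
  fin_cases i <;> fin_cases j <;> simp [Dm, Di, Matrix.mul_apply, Fin.sum_univ_three] <;>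
    field_simp

lemma Di_Dm {y s : ℝ} (hy : y ≠ 0) (hs : s ≠ 0) : Di y s * Dm y s = 1 := by
  ext i j
  fin_cases i <;> fin_cases j <;> simp [Dm, Di, Matrix.mul_apply, Fin.sum_univ_three] <;>
    field_simp

lemma Pm_eq (x y s v1 v2 : ℝ) (hy : y ≠ 0) (hs : s ≠ 0) :
    Pm x y s v1 v2 = Um x v1 v2 * Dm y s * (Um x v1 v2)ᵀ := by
  ext i j
  fin_cases i <;> fin_cases j <;>
    simp [Pm, Um, Dm, Matrix.mul_apply, Fin.sum_univ_three, Matrix.transpose_apply] <;>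
    field_simp

lemma Pm_inv (x y s v1 v2 : ℝ) (hy : y ≠ 0) (hs : s ≠ 0) :
    (Pm x y s v1 v2)⁻¹ = (Ui x v1 v2)ᵀ * Di y s * Ui x v1 v2 := by
  apply Matrix.inv_eq_right_inv
  rw [Pm_eq x y s v1 v2 hy hs]
  have h1 : (Um x v1 v2)ᵀ * (Ui x v1 v2)ᵀ = 1 := by
    rw [← Matrix.transpose_mul, Ui_Um, Matrix.transpose_one]
  calc Um x v1 v2 * Dm y s * (Um x v1 v2)ᵀ * ((Ui x v1 v2)ᵀ * Di y s * Ui x v1 v2)
      = Um x v1 v2 * Dm y s * ((Um x v1 v2)ᵀ * (Ui x v1 v2)ᵀ) * Di y s * Ui x v1 v2 := by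
        simp only [Matrix.mul_assoc]
    _ = Um x v1 v2 * (Dm y s * Di y s) * Ui x v1 v2 := by
        rw [h1, Matrix.mul_one]; simp only [Matrix.mul_assoc]
    _ = 1 := by rw [Dm_Di hy hs, Matrix.mul_one, Um_Ui]

lemma Pm_posDef {x y s v1 v2 : ℝ} (hy : 0 < y) (hs : 0 < s) : (Pm x y s v1 v2).PosDef := by
  rw [Pm_eq x y s v1 v2 hy.ne' hs.ne']
  have hD : (Dm y s).PosDef := by
    have : Dm y s = Matrix.diagonal ![s * y, s / y, 1 / s ^ 2] := by
      ext i j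
      fin_cases i <;> fin_cases j <;> simp [Dm]
    rw [this]
    apply Matrix.PosDef.diagonal
    intro i
    fin_cases i
    · exact mul_pos hs hy
    · exact div_pos hs hy
    · exact div_pos one_pos (pow_pos hs 2)
  have h := hD.mul_mul_conjTranspose_same (B := Um x v1 v2) ?_
  · rwa [Matrix.conjTranspose_eq_transpose_of_trivial] at h
  · intro u w h
    have h2 := congrArg (fun z => z ᵥ* Ui x v1 v2) h
    simpa [Matrix.vecMul_vecMul, Um_Ui] using h2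

lemma Pm_det {x y s v1 v2 : ℝ} (hy : y ≠ 0) (hs : s ≠ 0) : (Pm x y s v1 v2).det = 1 := by
  rw [Pm_eq x y s v1 v2 hy hs, Matrix.det_mul, Matrix.det_mul, Matrix.det_transpose]
  have h1 : (Um x v1 v2).det = 1 := by
    rw [Matrix.det_fin_three]; simp [Um]
  have h2 : (Dm y s).det = 1 := by
    rw [Matrix.det_fin_three]; simp [Dm]; field_simp
  rw [h1, h2]; norm_num

lemma Pm_mem {x y s v1 v2 : ℝ} (hy : 0 < y) (hs : 0 < s) : Pm x y s v1 v2 ∈ SymSp :=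
  ⟨Pm_posDef hy hs, Pm_det hy.ne' hs.ne'⟩

/-- the derivative of `Pm` in the direction `(dx, dy, ds, dv)` -/
def dPm (x y s v1 v2 dx dy ds d1 d2 : ℝ) : Mat3 :=
  Um x v1 v2 * !![ds * y + s * dy, dx * s / y, (d1 - x * d2) / s ^ 2;
    dx * s / y, ds / y - s * dy / y ^ 2, d2 / s ^ 2;
    (d1 - x * d2) / s ^ 2, d2 / s ^ 2, -2 * ds / s ^ 3] * (Um x v1 v2)ᵀ

/-- the metric in the coordinates -/
lemma ip_Pm {x y s v1 v2 : ℝ} (hy : y ≠ 0) (hs : s ≠ 0) (dx dy ds d1 d2 ex ey es e1 e2 : ℝ) :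
    ip (Pm x y s v1 v2) (dPm x y s v1 v2 dx dy ds d1 d2) (dPm x y s v1 v2 ex ey es e1 e2) =
      6 * (ds * es) / s ^ 2 + 2 * (dx * ex + dy * ey) / y ^ 2 +
      2 / s ^ 3 * ((d1 - x * d2) * (e1 - x * e2) / y + y * (d2 * e2)) := by
  unfold ip
  rw [Pm_inv x y s v1 v2 hy hs]
  unfold dPm
  set U := Um x v1 v2 with hU
  set V := Ui x v1 v2 with hV
  set L : Mat3 := !![ds * y + s * dy, dx * s / y, (d1 - x * d2) / s ^ 2;
    dx * s / y, ds / y - s * dy / y ^ 2, d2 / s ^ 2;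
    (d1 - x * d2) / s ^ 2, d2 / s ^ 2, -2 * ds / s ^ 3] with hL
  set K : Mat3 := !![es * y + s * ey, ex * s / y, (e1 - x * e2) / s ^ 2;
    ex * s / y, es / y - s * ey / y ^ 2, e2 / s ^ 2;
    (e1 - x * e2) / s ^ 2, e2 / s ^ 2, -2 * es / s ^ 3] with hK
  have h1 : V * U = 1 := Ui_Um x v1 v2
  have h2 : Uᵀ * Vᵀ = 1 := by rw [← Matrix.transpose_mul, h1, Matrix.transpose_one]
  have h3 : Vᵀ * Di y s * V * (U * L * Uᵀ) * (Vᵀ * Di y s * V) * (U * K * Uᵀ) =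
      Vᵀ * (Di y s * L * Di y s * K * Uᵀ) := by
    calc _ = Vᵀ * Di y s * (V * U) * L * (Uᵀ * Vᵀ) * Di y s * (V * U) * K * Uᵀ := by
          simp only [Matrix.mul_assoc]
      _ = _ := by
          rw [h1, h2]; simp only [Matrix.mul_one, Matrix.mul_assoc]
  rw [h3, Matrix.trace_mul_comm, Matrix.mul_assoc, h2, Matrix.mul_one]
  rw [Matrix.trace_fin_three]
  simp [hL, hK, Di, Matrix.mul_apply, Fin.sum_univ_three]
  field_simp
  ring

lemma Pm_injective {x y s v1 v2 x' y' s' v1' v2' : ℝ} (hy : 0 < y) (hs : 0 < s) (hy' : 0 < y')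
    (hs' : 0 < s') (h : Pm x y s v1 v2 = Pm x' y' s' v1' v2') :
    x = x' ∧ y = y' ∧ s = s' ∧ v1 = v1' ∧ v2 = v2' := by
  have h22 := congrFun (congrFun h 2) 2
  have h02 := congrFun (congrFun h 0) 2
  have h12 := congrFun (congrFun h 1) 2
  have h11 := congrFun (congrFun h 1) 1
  have h01 := congrFun (congrFun h 0) 1
  simp [Pm] at h22 h02 h12 h11 h01
  have e1 : s = s' := by
    exact (pow_left_inj₀ hs.le hs'.le two_ne_zero).1 h22
  subst e1
  have e2 : v1 = v1' := by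
    field_simp at h02; exact h02
  have e3 : v2 = v2' := by
    field_simp at h12; exact h12
  subst e2 e3
  have e4 : y = y' := by
    have : s / y = s / y' := by linarith
    field_simp at this
    exact this.symm
  subst e4
  have e5 : x = x' := by
    have : s * (x / y) = s * (x' / y) := by linarith
    field_simp at this
    exact this
  exact ⟨e5, rfl, rfl, rfl, rfl⟩

end Pool.Agent.TH625.HP
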