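import Mathlib

/-! Definitions: the Riemannian geometry of the irreducible symmetric space `SL(3,ℝ)/SO(3)` of
noncompact type, hyperpolar foliations of it, and homogeneity of foliations. -/

set_option autoImplicit false

open Matrix
open scoped Matrix.Norms.Elementwise ContDiff

noncomputable section

namespace Pool.Agent.TH625.HP

/-- real `3 × 3` matrices -/
abbrev Mat3 : Type := Matrix (Fin 3) (Fin 3) ℝ

/-- The symmetric space `M = SL(3,ℝ)/SO(3)`, realised as the space of positive definite symmetric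
real `3 × 3` matrices of determinant one. -/
def SymSp : Set Mat3 := {P | P.PosDef ∧ P.det = 1}

/-- The Riemannian metric `⟨X, Y⟩_P = tr (P⁻¹ X P⁻¹ Y)` of `SL(3,ℝ)/SO(3)`. -/
def ip (P X Y : Mat3) : ℝ := (P⁻¹ * X * P⁻¹ * Y).trace

/-- A `C¹` curve in the symmetric space. -/
def IsCurve (γ : ℝ → Mat3) : Prop := ContDiff ℝ 1 γ ∧ ∀ t, γ t ∈ SymSp

/-- Riemannian length of a curve over `[0, 1]`. -/
def len (γ : ℝ → Mat3) : ℝ := ∫ t in (0 : ℝ)..1, √(ip (γ t) (deriv γ t) (deriv γ t))

/-- Riemannian distance: the infimum of the lengths of `C¹` curves joining the two points. -/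
def rdist (P Q : Mat3) : ℝ := sInf {l | ∃ γ, IsCurve γ ∧ γ 0 = P ∧ γ 1 = Q ∧ len γ = l}

/-- Complete geodesics of the symmetric space: solutions `γ : ℝ → M` of the geodesic equation
`γ'' = γ' γ⁻¹ γ'` of the metric `tr (P⁻¹ X P⁻¹ Y)`. -/
def IsGeodesic (γ : ℝ → Mat3) : Prop :=
  ∀ t, γ t ∈ SymSp ∧ HasDerivAt γ (deriv γ t) t ∧
    HasDerivAt (deriv γ) (deriv γ t * (γ t)⁻¹ * deriv γ t) t

/-- Isometries of the symmetric space: bijections which carry `C¹` curves to `C¹` curves and
preserve their Riemannian speed (every Riemannian isometry is one). -/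
def IsIso (h : Equiv.Perm SymSp) : Prop :=
  ∀ γ : ℝ → SymSp, ContDiff ℝ 1 (fun t => (γ t : Mat3)) →
    ContDiff ℝ 1 (fun t => (h (γ t) : Mat3)) ∧
    ∀ t, ip (h (γ t)) (deriv (fun s => (h (γ s) : Mat3)) t) (deriv (fun s => (h (γ s) : Mat3)) t) =
      ip (γ t) (deriv (fun s => (γ s : Mat3)) t) (deriv (fun s => (γ s : Mat3)) t)

/-- `X` is tangent to the subset `L` at `P`: it is the velocity at time `0` of a smooth curve lying
in `L` and starting at `P`. -/
def TangentTo (L : Set Mat3) (P X : Mat3) : Prop :=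
  ∃ γ : ℝ → Mat3, ContDiff ℝ ∞ γ ∧ (∀ t, γ t ∈ L) ∧ γ 0 = P ∧ deriv γ 0 = X

/-- `X` is normal to the subset `L` at `P`. -/
def NormalTo (L : Set Mat3) (P X : Mat3) : Prop := ∀ Y, TangentTo L P Y → ip P X Y = 0

/-- `F` is a Riemannian foliation of `M = SL(3,ℝ)/SO(3)` all of whose leaves are closed and are
smooth injective immersions of `ℝ^m`: the leaves partition `M`; the smooth vector fields tangent to
the leaves span the tangent spaces of the leaves; and every geodesic which is orthogonal to a leaf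
at one point is orthogonal to every leaf it meets. -/
structure IsRiemannianFoliation (F : Set (Set Mat3)) (m : ℕ) : Prop where
  /-- the leaves cover `M` -/
  cover : ⋃₀ F = SymSp
  /-- distinct leaves are disjoint -/
  disjoint : ∀ L ∈ F, ∀ L' ∈ F, (L ∩ L').Nonempty → L = L'
  /-- each leaf is closed and an injectively immersed copy of `ℝ^m` -/
  leaf : ∀ L ∈ F, IsClosed L ∧ ∃ f : EuclideanSpace ℝ (Fin m) → Mat3, ContDiff ℝ ∞ f ∧
    Function.Injective f ∧ (∀ x, Function.Injective (fderiv ℝ f x)) ∧ Set.range f = L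
  /-- every vector tangent to a leaf extends to a smooth vector field on `M` tangent to all
  leaves -/
  fields : ∀ L ∈ F, ∀ P ∈ L, ∀ X, TangentTo L P X → ∃ V : Mat3 → Mat3,
    (∀ Q ∈ SymSp, ContDiffAt ℝ ∞ V Q) ∧ (∀ L' ∈ F, ∀ Q ∈ L', TangentTo L' Q (V Q)) ∧ V P = X
  /-- geodesics orthogonal to one leaf are orthogonal to all leaves they meet -/
  geodesics : ∀ γ, IsGeodesic γ → ∀ L ∈ F, γ 0 ∈ L → NormalTo L (γ 0) (deriv γ 0) →
    ∀ t, ∀ L' ∈ F, γ t ∈ L' → NormalTo L' (γ t) (deriv γ t)

/-- The foliation `F` is hyperpolar with `k`-dimensional sections: through every point of `M` there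
passes a flat complete totally geodesic submanifold `Σ`, the image of an isometric immersion `σ` of
the Euclidean space `ℝ^k`, which meets every leaf and whose tangent space at each of its points is
the normal space of the leaf through that point (so that `k` is the codimension of the leaves). -/
def IsHyperpolar (F : Set (Set Mat3)) (k : ℕ) : Prop :=
  ∀ P ∈ SymSp, ∃ σ : EuclideanSpace ℝ (Fin k) → Mat3,
    P ∈ Set.range σ ∧ ContDiff ℝ ∞ σ ∧ (∀ x, σ x ∈ SymSp) ∧
    -- isometric immersion of flat `ℝ^k`, which even preserves the Riemannian distance of `M`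
    (∀ x u u', ip (σ x) (fderiv ℝ σ x u) (fderiv ℝ σ x u') = inner ℝ u u') ∧
    (∀ x y, rdist (σ x) (σ y) = dist x y) ∧
    -- totally geodesic
    (∀ x u, IsGeodesic fun t : ℝ => σ (x + t • u)) ∧
    -- meets every leaf
    (∀ L ∈ F, (L ∩ Set.range σ).Nonempty) ∧
    -- orthogonally, and spans the whole normal space
    (∀ L ∈ F, ∀ x, σ x ∈ L → ∀ X, TangentTo SymSp (σ x) X →
      (NormalTo L (σ x) X ↔ ∃ u, fderiv ℝ σ x u = X))

/-- The foliation `F` is homogeneous: its leaves are the orbits of some group of isometries of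
`M` (no closedness or connectedness of the group is required). -/
def IsHomogeneous (F : Set (Set Mat3)) : Prop :=
  ∃ H : Subgroup (Equiv.Perm SymSp), (∀ h ∈ H, IsIso h) ∧
    F = {L | ∃ P : SymSp, L = {Q | ∃ h ∈ H, (h P : Mat3) = Q}}

end Pool.Agent.TH625.HP
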