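import Pool.Agent.TH625.HP.Geo

/-! The foliation: orthogonality, distances, inhomogeneity. -/

set_option autoImplicit false

open Matrix
open scoped Matrix.Norms.Elementwise ContDiff

noncomputable section

namespace Pool.Agent.TH625.HP

/-! ### coordinates of curves -/

lemma hasDerivAt_th {γ : ℝ → Mat3} {t : ℝ} {γ' : Mat3} (hm : γ t ∈ SymSp)
    (h : HasDerivAt γ γ' t) :
    HasDerivAt (fun s => th1 (γ s)) (fderiv ℝ th1 (γ t) γ') t ∧
    HasDerivAt (fun s => th2 (γ s)) (fderiv ℝ th2 (γ t) γ') t := by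
  have h1 := ((contDiffAt_th1 hm).differentiableAt (by simp)).hasFDerivAt
  have h2 := ((contDiffAt_th2 hm).differentiableAt (by simp)).hasFDerivAt
  exact ⟨h1.comp_hasDerivAt t h, h2.comp_hasDerivAt t h⟩

/-- derivative of a curve in the coordinates -/
lemma curve_deriv {γ : ℝ → Mat3} {t : ℝ} {γ' : Mat3} (hm : ∀ t, γ t ∈ SymSp)
    (h : HasDerivAt γ γ' t) :
    γ' = dpsi (th1 (γ t)) (th2 (γ t)) (fderiv ℝ th1 (γ t) γ') (fderiv ℝ th2 (γ t) γ') := by
  have h1 := hasDerivAt_psi (hasDerivAt_th (hm t) h).1 (hasDerivAt_th (hm t) h).2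
  have h2 : (fun s => psi (th1 (γ s)) (th2 (γ s))) = γ := by
    funext s; exact psi_th (hm s)
  rw [h2] at h1
  exact h.unique h1

lemma sq_norm_E2 (u : E2) : ‖u‖ ^ 2 = u 0 * u 0 + u 1 * u 1 := by
  rw [EuclideanSpace.norm_sq_eq, Fin.sum_univ_two]
  simp [sq]

/-- the leaf part of the metric -/
def leafQ (c : E2) (w e : E3) : ℝ :=
  2 * Jf (aC c) (w 0) ^ 2 * (e 0 * e 0) +
      2 / sC c ^ 3 * ((e 1 - Xf (aC c) (w 0) * e 2) * (e 1 - Xf (aC c) (w 0) * e 2) /
        Yf (aC c) (w 0) + Yf (aC c) (w 0) * (e 2 * e 2))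

lemma ip_self (c : E2) (w : E3) (u : E2) (e : E3) :
    ip (psi c w) (dpsi c w u e) (dpsi c w u e) = ‖u‖ ^ 2 + leafQ c w e := by
  rw [ip_dpsi, sq_norm_E2, leafQ]; ring

lemma leafQ_nonneg (c : E2) (w e : E3) : 0 ≤ leafQ c w e := leaf_nonneg c w e

lemma leafQ_zero {c : E2} {w e : E3} (h : leafQ c w e = 0) : e = 0 := leaf_zero c w e h

lemma ip_section (c : E2) (w : E3) (u u' : E2) :
    ip (psi c w) (dpsi c w u 0) (dpsi c w u' 0) = inner ℝ u u' := by
  rw [ip_dpsi]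
  simp [PiLp.inner_apply, Fin.sum_univ_two]
  ring

lemma ip_perp (c : E2) (w : E3) (u : E2) (e : E3) :
    ip (psi c w) (dpsi c w u 0) (dpsi c w 0 e) = 0 := by
  rw [ip_dpsi]
  simp

lemma ip_leaf (c : E2) (w : E3) (u : E2) (e : E3) :
    ip (psi c w) (dpsi c w u e) (dpsi c w 0 e) = leafQ c w e := by
  rw [ip_dpsi, leafQ]
  simp

/-- speed of a curve in the coordinates -/
lemma curve_speed {γ : ℝ → Mat3} {t : ℝ} {γ' : Mat3} (hm : ∀ t, γ t ∈ SymSp)
    (h : HasDerivAt γ γ' t) :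
    ip (γ t) γ' γ' = ‖fderiv ℝ th1 (γ t) γ'‖ ^ 2 +
      leafQ (th1 (γ t)) (th2 (γ t)) (fderiv ℝ th2 (γ t) γ') := by
  have h1 := curve_deriv hm h
  conv_lhs => rw [h1, ← psi_th (hm t)]
  rw [th1_psi, th2_psi, ip_self, psi_th (hm t)]

/-! ### geodesics orthogonal to a leaf -/

lemma deriv_line (c : E2) (w : E3) (u : E2) (t : ℝ) :
    deriv (fun t : ℝ => psi (c + t • u) w) t = dpsi (c + t • u) w u 0 :=
  (hasDerivAt_psi (hasDerivAt_line c u t) (hasDerivAt_const t w)).deriv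

lemma geod_normal {γ : ℝ → Mat3} (h : IsGeodesic γ) (c : E2) (w : E3) (h0 : γ 0 = psi c w)
    (hp : ∀ e : E3, ip (γ 0) (deriv γ 0) (dpsi c w 0 e) = 0) :
    ∃ u : E2, γ = fun t : ℝ => psi (c + t • u) w := by
  have hm : ∀ t, γ t ∈ SymSp := fun t => (h t).1
  have h1 := curve_deriv hm (h 0).2.1
  rw [h0, th1_psi, th2_psi] at h1
  set u := fderiv ℝ th1 (psi c w) (deriv γ 0) with hu
  set e := fderiv ℝ th2 (psi c w) (deriv γ 0) with he
  have h2 := hp e
  rw [h1, h0, ip_leaf] at h2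
  have h3 := leafQ_zero h2
  rw [h3] at h1
  refine ⟨u, geod_unique h (geod_line c w u) ?_ ?_⟩
  · simp [h0]
  · rw [deriv_line]; simpa using h1

/-! ### distances -/

lemma continuous_ip {γ : ℝ → Mat3} (h : IsCurve γ) :
    Continuous fun t => ip (γ t) (deriv γ t) (deriv γ t) := by
  have e : (fun t => ip (γ t) (deriv γ t) (deriv γ t)) =
      fun t => ((γ t).adjugate * deriv γ t * (γ t).adjugate * deriv γ t).trace := by
    funext t; unfold ip; rw [inv_eq_adj (h.2 t)]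
  have h1 : Continuous γ := h.1.continuous
  have h2 : Continuous (deriv γ) := h.1.continuous_deriv le_rfl
  rw [e]
  have h3 := h1.matrix_adjugate
  exact (((h3.matrix_mul h2).matrix_mul h3).matrix_mul h2).matrix_trace

lemma len_nonneg (γ : ℝ → Mat3) : 0 ≤ len γ := by
  unfold len
  apply intervalIntegral.integral_nonneg (by norm_num)
  intro t _
  positivity

lemma contDiff_th {γ : ℝ → Mat3} (h : IsCurve γ) :
    ContDiff ℝ 1 (fun t => th1 (γ t)) ∧ ContDiff ℝ 1 (fun t => th2 (γ t)) := by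
  constructor
  · rw [contDiff_iff_contDiffAt]
    intro t
    exact ((contDiffAt_th1 (h.2 t)).of_le (by exact_mod_cast le_top)).comp t h.1.contDiffAt
  · rw [contDiff_iff_contDiffAt]
    intro t
    exact ((contDiffAt_th2 (h.2 t)).of_le (by exact_mod_cast le_top)).comp t h.1.contDiffAt

lemma len_ge {γ : ℝ → Mat3} (h : IsCurve γ) : ‖th1 (γ 1) - th1 (γ 0)‖ ≤ len γ := by
  have hc := (contDiff_th h).1
  have hd : ∀ t, HasDerivAt γ (deriv γ t) t := fun t =>
    (h.1.differentiable (by simp) t).hasDerivAt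
  have e1 : ∫ t in (0:ℝ)..1, deriv (fun t => th1 (γ t)) t = th1 (γ 1) - th1 (γ 0) :=
    intervalIntegral.integral_deriv_eq_sub' (fun t => th1 (γ t)) rfl
      (fun t _ => (hc.differentiable (by simp) t)) (hc.continuous_deriv le_rfl).continuousOn
  rw [← e1]
  refine (intervalIntegral.norm_integral_le_integral_norm (by norm_num)).trans ?_
  unfold len
  apply intervalIntegral.integral_mono_on (by norm_num)
  · exact ((hc.continuous_deriv le_rfl).norm).intervalIntegrable _ _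
  · exact ((continuous_ip h).sqrt).intervalIntegrable _ _
  · intro t _
    apply Real.le_sqrt_of_sq_le
    rw [curve_speed h.2 (hd t), ← ((hasDerivAt_th (h.2 t) (hd t)).1).deriv]
    have := leafQ_nonneg (th1 (γ t)) (th2 (γ t)) (fderiv ℝ th2 (γ t) (deriv γ t))
    linarith

lemma isCurve_psi {c : ℝ → E2} {w : ℝ → E3} (hc : ContDiff ℝ 1 c) (hw : ContDiff ℝ 1 w) :
    IsCurve (fun t => psi (c t) (w t)) := by
  refine ⟨?_, fun t => psi_mem _ _⟩
  have h1 : ContDiff ℝ 1 (fun z : E2 × E3 => psi z.1 z.2) :=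
    contDiff_psi.of_le (by exact_mod_cast le_top)
  exact h1.comp (hc.prodMk hw)

lemma rdist_bdd (P Q : Mat3) :
    BddBelow {l | ∃ γ, IsCurve γ ∧ γ 0 = P ∧ γ 1 = Q ∧ len γ = l} := by
  refine ⟨0, ?_⟩
  rintro l ⟨γ, -, -, -, rfl⟩
  exact len_nonneg γ

lemma rdist_ge (c c' : E2) (w w' : E3) : dist c c' ≤ rdist (psi c w) (psi c' w') := by
  unfold rdist
  apply le_csInf
  · refine ⟨_, fun t : ℝ => psi (c + t • (c' - c)) (w + t • (w' - w)), isCurve_psi ?_ ?_, ?_, ?_,
      rfl⟩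
    · fun_prop
    · fun_prop
    · simp
    · simp
  · rintro l ⟨γ, hγ, h0, h1, rfl⟩
    have := len_ge hγ
    rw [h0, h1, th1_psi, th1_psi] at this
    rwa [dist_comm, dist_eq_norm]

lemma rdist_section (c c' : E2) (w : E3) : rdist (psi c w) (psi c' w) = dist c c' := by
  apply le_antisymm _ (rdist_ge c c' w w)
  unfold rdist
  apply csInf_le (rdist_bdd _ _)
  refine ⟨fun t : ℝ => psi (c + t • (c' - c)) w, isCurve_psi ?_ ?_, ?_, ?_, ?_⟩
  · fun_prop
  · fun_prop
  · simp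
  · simp
  · unfold len
    have : ∀ t : ℝ, √(ip (psi (c + t • (c' - c)) w)
        (deriv (fun t : ℝ => psi (c + t • (c' - c)) w) t)
        (deriv (fun t : ℝ => psi (c + t • (c' - c)) w) t)) = dist c c' := by
      intro t
      rw [deriv_line, ip_self]
      have h0 : leafQ (c + t • (c' - c)) w 0 = 0 := by simp [leafQ]
      rw [h0, add_zero, Real.sqrt_sq (norm_nonneg _), dist_comm, dist_eq_norm]
    simp only [this]
    simp

end Pool.Agent.TH625.HP
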