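import Pool.Agent.TH625.HP.Theta

/-! Geodesics and the flat sections. -/

set_option autoImplicit false

open Matrix
open scoped Matrix.Norms.Elementwise ContDiff

noncomputable section

namespace Pool.Agent.TH625.HP

lemma hasDerivAt_entry {f : ℝ → Mat3} {f' : Mat3} {t : ℝ} (h : HasDerivAt f f' t) (i j : Fin 3) :
    HasDerivAt (fun s => f s i j) (f' i j) t := by
  have h1 := hasDerivAt_pi.1 h i
  exact hasDerivAt_pi.1 h1 j

lemma hasDerivAt_mul {f g : ℝ → Mat3} {f' g' : Mat3} {t : ℝ} (hf : HasDerivAt f f' t)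
    (hg : HasDerivAt g g' t) : HasDerivAt (fun s => f s * g s) (f' * g t + f t * g') t := by
  apply hasDerivAt_mat
  intro i j
  have h : ∀ k, HasDerivAt (fun s => f s i k * g s k j) (f' i k * g t k j + f t i k * g' k j) t :=
    fun k => (hasDerivAt_entry hf i k).mul (hasDerivAt_entry hg k j)
  have h2 := ((h 0).add (h 1)).add (h 2)
  simp only [Matrix.mul_apply, Fin.sum_univ_three, Matrix.add_apply]
  refine h2.congr_deriv ?_
  ring

lemma hasDerivAt_const_mul_diag (A B : Mat3) {d : ℝ → Fin 3 → ℝ} {d' : Fin 3 → ℝ} {t : ℝ}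
    (h : ∀ k, HasDerivAt (fun s => d s k) (d' k) t) :
    HasDerivAt (fun s => A * diagonal (d s) * B) (A * diagonal d' * B) t := by
  have h1 : HasDerivAt (fun s => diagonal (d s)) (diagonal d') t := by
    apply hasDerivAt_mat
    intro i j
    by_cases hij : i = j
    · subst hij; simpa using h i
    · simp only [Matrix.diagonal_apply_ne _ hij]; exact hasDerivAt_const t 0
  have hA : HasDerivAt (fun _ : ℝ => A) 0 t := hasDerivAt_const t A
  have hB : HasDerivAt (fun _ : ℝ => B) 0 t := hasDerivAt_const t B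
  have h2 := hasDerivAt_mul (hasDerivAt_mul hA h1) hB
  simpa using h2

/-- exponents of the flat -/
def lam (c : E2) : Fin 3 → ℝ := ![c 1 / √6 + c 0 / √2, c 1 / √6 - c 0 / √2, -2 * (c 1 / √6)]

/-- the group element moving the standard flat to the section -/
def Gm (w : E3) : Mat3 :=
  !![3 * Real.exp (w 0 / 4) / 2, Real.exp (w 0 / 4) ^ 3 / 2, w 1;
     (Real.exp (w 0 / 4) ^ 3)⁻¹ / 2, -(Real.exp (w 0 / 4))⁻¹ / 2, w 2;
     0, 0, 1]

lemma Gm_det (w : E3) : (Gm w).det = -1 := by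
  have h := Real.exp_pos (w 0 / 4)
  rw [Matrix.det_fin_three]
  simp [Gm]
  field_simp
  norm_num

lemma psi_eq (c : E2) (w : E3) :
    psi c w = Gm w * diagonal (fun k => Real.exp (lam c k)) * (Gm w)ᵀ := by
  have hq := Real.exp_pos (w 0 / 4)
  have hA := Real.exp_pos (c 0 / √2)
  have hs := Real.exp_pos (c 1 / √6)
  have hr : Real.exp (w 0) = Real.exp (w 0 / 4) ^ 4 := by
    rw [← Real.exp_nat_mul]; congr 1; push_cast; ring
  have hE : Ef (aC c) (w 0) = Real.exp (c 0 / √2) / Real.exp (w 0 / 4) ^ 2 := by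
    unfold Ef aC
    rw [Real.exp_sub, ← Real.exp_nat_mul]; congr 2; push_cast; ring
  have l0 : Real.exp (lam c 0) = Real.exp (c 1 / √6) * Real.exp (c 0 / √2) := by
    simp only [lam, Matrix.cons_val_zero, Real.exp_add]
  have l1 : Real.exp (lam c 1) = Real.exp (c 1 / √6) / Real.exp (c 0 / √2) := by
    simp only [lam, Matrix.cons_val_one, Matrix.cons_val_zero, Real.exp_sub]
  have l2 : Real.exp (lam c 2) = (Real.exp (c 1 / √6) ^ 2)⁻¹ := by
    have : lam c 2 = -((2:ℕ) * (c 1 / √6)) := by simp [lam]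
    rw [this, Real.exp_neg, Real.exp_nat_mul]
  unfold psi Xf Yf
  rw [hE, hr, show sC c = Real.exp (c 1 / √6) from rfl]
  set q := Real.exp (w 0 / 4) with hqd
  set A := Real.exp (c 0 / √2) with hAd
  set s := Real.exp (c 1 / √6) with hsd
  have key : ∀ i j, (Gm w * diagonal (fun k => Real.exp (lam c k)) * (Gm w)ᵀ) i j =
      Gm w i 0 * (s * A) * Gm w j 0 + Gm w i 1 * (s / A) * Gm w j 1 +
        Gm w i 2 * (s ^ 2)⁻¹ * Gm w j 2 := by
    intro i j
    rw [Matrix.mul_apply, Fin.sum_univ_three]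
    simp only [Matrix.mul_diagonal, Matrix.transpose_apply, l0, l1, l2]
  have g : Gm w = !![3 * q / 2, q ^ 3 / 2, w 1; (q ^ 3)⁻¹ / 2, -q⁻¹ / 2, w 2; 0, 0, 1] := rfl
  ext i j
  rw [key, g]
  fin_cases i <;> fin_cases j <;> simp [Pm] <;> field_simp <;> ring

lemma psi_inv (c : E2) (w : E3) :
    (psi c w)⁻¹ = ((Gm w)ᵀ)⁻¹ * diagonal (fun k => Real.exp (-lam c k)) * (Gm w)⁻¹ := by
  have hG : IsUnit (Gm w).det := by rw [Gm_det]; norm_num
  have hGt : IsUnit ((Gm w)ᵀ).det := by rw [Matrix.det_transpose]; exact hG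
  rw [psi_eq]
  apply Matrix.inv_eq_right_inv
  have e1 : (Gm w)ᵀ * ((Gm w)ᵀ)⁻¹ = 1 := Matrix.mul_nonsing_inv _ hGt
  have e2 : Gm w * (Gm w)⁻¹ = 1 := Matrix.mul_nonsing_inv _ hG
  have e3 : diagonal (fun k => Real.exp (lam c k)) * diagonal (fun k => Real.exp (-lam c k)) =
      (1 : Mat3) := by
    rw [Matrix.diagonal_mul_diagonal, ← Matrix.diagonal_one]
    congr 1
    funext k
    rw [← Real.exp_add]; simp
  calc Gm w * diagonal (fun k => Real.exp (lam c k)) * (Gm w)ᵀ *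
        (((Gm w)ᵀ)⁻¹ * diagonal (fun k => Real.exp (-lam c k)) * (Gm w)⁻¹)
      = Gm w * diagonal (fun k => Real.exp (lam c k)) * ((Gm w)ᵀ * ((Gm w)ᵀ)⁻¹) *
          diagonal (fun k => Real.exp (-lam c k)) * (Gm w)⁻¹ := by simp only [Matrix.mul_assoc]
    _ = Gm w * (diagonal (fun k => Real.exp (lam c k)) * diagonal (fun k => Real.exp (-lam c k))) *
          (Gm w)⁻¹ := by rw [e1, Matrix.mul_one]; simp only [Matrix.mul_assoc]
    _ = 1 := by rw [e3, Matrix.mul_one, e2]

lemma hasDerivAt_line {n : ℕ} (c u : EuclideanSpace ℝ (Fin n)) (t : ℝ) :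
    HasDerivAt (fun t : ℝ => c + t • u) u t := by
  simpa using ((hasDerivAt_id t).smul_const u).const_add c

lemma lam_line (c u : E2) (t : ℝ) (k : Fin 3) :
    HasDerivAt (fun t : ℝ => lam (c + t • u) k) (lam u k) t := by
  have h0 := hasDerivAt_coord (hasDerivAt_line c u t) 0
  have h1 := hasDerivAt_coord (hasDerivAt_line c u t) 1
  fin_cases k
  · exact (h1.div_const (√6)).add (h0.div_const (√2))
  · exact (h1.div_const (√6)).sub (h0.div_const (√2))
  · exact (h1.div_const (√6)).const_mul (-2)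

/-- straight lines in the flat sections are geodesics -/
lemma geod_line (c : E2) (w : E3) (u : E2) : IsGeodesic (fun t : ℝ => psi (c + t • u) w) := by
  have e1 : ∀ t : ℝ, HasDerivAt (fun t : ℝ => psi (c + t • u) w)
      (Gm w * diagonal (fun k => Real.exp (lam (c + t • u) k) * lam u k) * (Gm w)ᵀ) t := by
    intro t
    have : (fun t : ℝ => psi (c + t • u) w) =
        fun t => Gm w * diagonal (fun k => Real.exp (lam (c + t • u) k)) * (Gm w)ᵀ := by
      funext t; exact psi_eq _ _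
    rw [this]
    exact hasDerivAt_const_mul_diag _ _ fun k => (lam_line c u t k).exp
  have e2 : deriv (fun t : ℝ => psi (c + t • u) w) =
      fun t : ℝ => Gm w * diagonal (fun k => Real.exp (lam (c + t • u) k) * lam u k) * (Gm w)ᵀ := by
    funext t; exact (e1 t).deriv
  have e3 : ∀ t : ℝ, HasDerivAt (deriv (fun t : ℝ => psi (c + t • u) w))
      (Gm w * diagonal (fun k => Real.exp (lam (c + t • u) k) * lam u k * lam u k) * (Gm w)ᵀ) t := by
    intro t
    rw [e2]
    exact hasDerivAt_const_mul_diag _ _ fun k => (lam_line c u t k).exp.mul_const _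
  intro t
  refine ⟨psi_mem _ _, ?_, ?_⟩
  · rw [e2]; exact e1 t
  · convert e3 t using 1
    rw [e2, psi_inv]
    have hG : IsUnit (Gm w).det := by rw [Gm_det]; norm_num
    have hGt : IsUnit ((Gm w)ᵀ).det := by rw [Matrix.det_transpose]; exact hG
    have e1 : (Gm w)ᵀ * ((Gm w)ᵀ)⁻¹ = 1 := Matrix.mul_nonsing_inv _ hGt
    have e2 : (Gm w)⁻¹ * Gm w = 1 := Matrix.nonsing_inv_mul _ hG
    set D1 : Mat3 := diagonal (fun k => Real.exp (lam (c + t • u) k) * lam u k) with hD1
    set D2 : Mat3 := diagonal (fun k => Real.exp (-lam (c + t • u) k)) with hD2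
    have e4 : D1 * D2 * D1 =
        diagonal (fun k => Real.exp (lam (c + t • u) k) * lam u k * lam u k) := by
      rw [hD1, hD2, Matrix.diagonal_mul_diagonal, Matrix.diagonal_mul_diagonal]
      congr 1
      funext k
      rw [Real.exp_neg]
      have := (Real.exp_pos (lam (c + t • u) k)).ne'
      field_simp
    calc Gm w * D1 * (Gm w)ᵀ * (((Gm w)ᵀ)⁻¹ * D2 * (Gm w)⁻¹) * (Gm w * D1 * (Gm w)ᵀ)
        = Gm w * D1 * ((Gm w)ᵀ * ((Gm w)ᵀ)⁻¹) * D2 * ((Gm w)⁻¹ * Gm w) * D1 * (Gm w)ᵀ := by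
          simp only [Matrix.mul_assoc]
      _ = Gm w * (D1 * D2 * D1) * (Gm w)ᵀ := by
          rw [e1, e2, Matrix.mul_one, Matrix.mul_one]; simp only [Matrix.mul_assoc]
      _ = _ := by rw [e4]

/-! ### uniqueness of geodesics -/

lemma inv_eq_adj {P : Mat3} (h : P ∈ SymSp) : P⁻¹ = P.adjugate := by
  rw [Matrix.inv_def, h.2]; simp

lemma mul_inv_mem {P : Mat3} (h : P ∈ SymSp) : P * P⁻¹ = 1 :=
  Matrix.mul_nonsing_inv _ (by rw [h.2]; exact isUnit_one)

lemma inv_mul_mem {P : Mat3} (h : P ∈ SymSp) : P⁻¹ * P = 1 :=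
  Matrix.nonsing_inv_mul _ (by rw [h.2]; exact isUnit_one)

lemma hasDerivAt_inv {γ : ℝ → Mat3} {γ' : Mat3} {t : ℝ} (hm : ∀ t, γ t ∈ SymSp)
    (h : HasDerivAt γ γ' t) : HasDerivAt (fun s => (γ s)⁻¹) (-((γ t)⁻¹ * γ' * (γ t)⁻¹)) t := by
  have hd : DifferentiableAt ℝ (fun s => (γ s)⁻¹) t := by
    have e : (fun s => (γ s)⁻¹) = fun s => (γ s).adjugate := by
      funext s; exact inv_eq_adj (hm s)
    rw [e]
    have hij : ∀ i j, DifferentiableAt ℝ (fun s => γ s i j) t := fun i j =>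
      (hasDerivAt_entry h i j).differentiableAt
    have e2 : ∀ i j, DifferentiableAt ℝ (fun s => (γ s).adjugate i j) t := by
      intro i j
      have h00 := hij 0 0
      have h01 := hij 0 1
      have h02 := hij 0 2
      have h10 := hij 1 0
      have h11 := hij 1 1
      have h12 := hij 1 2
      have h20 := hij 2 0
      have h21 := hij 2 1
      have h22 := hij 2 2
      simp only [Matrix.adjugate_fin_three]
      fin_cases i <;> fin_cases j <;> simp <;> fun_prop
    exact (hasDerivAt_mat (f' := Matrix.of fun i j => deriv (fun s => (γ s).adjugate i j) t)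
      fun i j => (e2 i j).hasDerivAt).differentiableAt
  have h1 := hasDerivAt_mul h hd.hasDerivAt
  have h2 : HasDerivAt (fun s => γ s * (γ s)⁻¹) 0 t := by
    have e : (fun s => γ s * (γ s)⁻¹) = fun _ => (1 : Mat3) := by
      funext s; exact mul_inv_mem (hm s)
    rw [e]; exact hasDerivAt_const t _
  have h3 := h1.unique h2
  have h4 : deriv (fun s => (γ s)⁻¹) t = -((γ t)⁻¹ * γ' * (γ t)⁻¹) := by
    have := congrArg (fun M => (γ t)⁻¹ * M) h3
    simp only [Matrix.mul_add, Matrix.mul_zero] at this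
    rw [← Matrix.mul_assoc (γ t)⁻¹ (γ t), inv_mul_mem (hm t), Matrix.one_mul] at this
    rw [Matrix.mul_assoc]
    exact eq_neg_of_add_eq_zero_right this
  rw [← h4]
  exact hd.hasDerivAt

lemma const_of_deriv {f : ℝ → Mat3} (h : ∀ t, HasDerivAt f 0 t) (t : ℝ) : f t = f 0 :=
  is_const_of_deriv_eq_zero (fun t => (h t).differentiableAt) (fun t => (h t).deriv) t 0

lemma geod_Z {γ : ℝ → Mat3} (h : IsGeodesic γ) (t : ℝ) :
    deriv γ t = γ t * ((γ 0)⁻¹ * deriv γ 0) := by
  have hm : ∀ t, γ t ∈ SymSp := fun t => (h t).1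
  have h1 : ∀ t, HasDerivAt (fun s => (γ s)⁻¹ * deriv γ s) 0 t := by
    intro t
    have := hasDerivAt_mul (hasDerivAt_inv hm (h t).2.1) (h t).2.2
    convert this using 1
    simp only [Matrix.mul_assoc, Matrix.neg_mul]
    simp
  have h2 := const_of_deriv h1 t
  rw [← h2, ← Matrix.mul_assoc, mul_inv_mem (hm t), Matrix.one_mul]

lemma geod_unique {γ σ : ℝ → Mat3} (h : IsGeodesic γ) (h' : IsGeodesic σ) (h0 : γ 0 = σ 0)
    (h1 : deriv γ 0 = deriv σ 0) : γ = σ := by
  have hm : ∀ t, γ t ∈ SymSp := fun t => (h t).1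
  have hm' : ∀ t, σ t ∈ SymSp := fun t => (h' t).1
  funext t
  have e : ∀ t, HasDerivAt (fun s => σ s * (γ s)⁻¹) 0 t := by
    intro t
    have := hasDerivAt_mul (h' t).2.1 (hasDerivAt_inv hm (h t).2.1)
    convert this using 1
    rw [geod_Z h t, geod_Z h' t, h0, h1]
    set Z := (σ 0)⁻¹ * deriv σ 0
    have e1 : (γ t)⁻¹ * (γ t * Z) * (γ t)⁻¹ = Z * (γ t)⁻¹ := by
      rw [← Matrix.mul_assoc (γ t)⁻¹, inv_mul_mem (hm t), Matrix.one_mul]
    rw [e1, Matrix.mul_neg, Matrix.mul_assoc, add_neg_cancel]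
  have h2 := const_of_deriv e t
  rw [← h0, mul_inv_mem (hm 0)] at h2
  have h3 := congrArg (fun M => M * γ t) h2
  simp only [Matrix.one_mul] at h3
  rw [Matrix.mul_assoc, inv_mul_mem (hm t), Matrix.mul_one] at h3
  exact h3.symm

end Pool.Agent.TH625.HP
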