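import Pool.Agent.TH625.HP.Fol

/-! Rigidity of isometries preserving the leaves, and closedness of the leaves. -/

set_option autoImplicit false

open Matrix
open scoped Matrix.Norms.Elementwise ContDiff

noncomputable section

namespace Pool.Agent.TH625.HP

/-- point of the symmetric space with given parameters -/
def pt (c : E2) (w : E3) : SymSp := ⟨psi c w, psi_mem c w⟩

@[simp] lemma coe_pt (c : E2) (w : E3) : (pt c w : Mat3) = psi c w := rfl

lemma pt_th (P : SymSp) : pt (th1 P) (th2 P) = P := Subtype.ext (psi_th P.2)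

section

variable {h : Equiv.Perm SymSp} (hh : IsIso h) (hl : ∀ P : SymSp, th1 (h P : Mat3) = th1 (P : Mat3))

include hh hl

/-- along a section the leaf coordinate of the image is constant -/
lemma sec_const (c c' : E2) (w : E3) : th2 (h (pt c w) : Mat3) = th2 (h (pt c' w) : Mat3) := by
  have hg : ContDiff ℝ 1 (fun t : ℝ => ((pt (c + t • (c' - c)) w : SymSp) : Mat3)) := by
    refine (isCurve_psi (c := fun t : ℝ => c + t • (c' - c)) (w := fun _ => w) ?_ ?_).1
    · fun_prop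
    · fun_prop
  obtain ⟨h1, h2⟩ := hh (fun t : ℝ => pt (c + t • (c' - c)) w) hg
  set σ : ℝ → Mat3 := fun t : ℝ => (h (pt (c + t • (c' - c)) w) : Mat3) with hσ
  have hm : ∀ t, σ t ∈ SymSp := fun t => (h (pt (c + t • (c' - c)) w)).2
  have hcu : IsCurve σ := ⟨h1, hm⟩
  have hd : ∀ t, HasDerivAt σ (deriv σ t) t := fun t => (h1.differentiable (by simp) t).hasDerivAt
  have ht1 : (fun t => th1 (σ t)) = fun t : ℝ => c + t • (c' - c) := by
    funext t
    rw [hσ]
    simp only
    rw [hl, coe_pt, th1_psi]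
  have e0 : ∀ t, fderiv ℝ th2 (σ t) (deriv σ t) = 0 := by
    intro t
    have s1 := curve_speed hm (hd t)
    have s2 := h2 t
    have u1 : fderiv ℝ th1 (σ t) (deriv σ t) = c' - c := by
      have := (hasDerivAt_th (hm t) (hd t)).1
      rw [ht1] at this
      exact this.unique (hasDerivAt_line c (c' - c) t)
    rw [u1] at s1
    have s3 : ip (psi (c + t • (c' - c)) w)
        (deriv (fun t : ℝ => psi (c + t • (c' - c)) w) t)
        (deriv (fun t : ℝ => psi (c + t • (c' - c)) w) t) = ‖c' - c‖ ^ 2 := by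
      rw [deriv_line, ip_self]
      simp [leafQ]
    have s4 : ip (σ t) (deriv σ t) (deriv σ t) = ‖c' - c‖ ^ 2 := s2.trans s3
    rw [s4] at s1
    exact leafQ_zero (by linarith)
  have hz : ∀ t, HasDerivAt (fun t => th2 (σ t)) 0 t := by
    intro t
    have := (hasDerivAt_th (hm t) (hd t)).2
    rwa [e0 t] at this
  have hc := is_const_of_deriv_eq_zero (fun t => (hz t).differentiableAt) (fun t => (hz t).deriv) 0 1
  simpa [hσ] using hc

/-- leaf speeds are preserved simultaneously for all leaves -/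
lemma leaf_speed (w : E3) (e : E3) : ∃ e' : E3, ∀ c : E2,
    leafQ c w e = leafQ c (th2 (h (pt 0 w) : Mat3)) e' := by
  refine ⟨deriv (fun t : ℝ => th2 (h (pt 0 (w + t • e)) : Mat3)) 0, fun c => ?_⟩
  have hg : ContDiff ℝ 1 (fun t : ℝ => ((pt c (w + t • e) : SymSp) : Mat3)) := by
    refine (isCurve_psi (c := fun _ => c) (w := fun t : ℝ => w + t • e) ?_ ?_).1
    · fun_prop
    · fun_prop
  obtain ⟨h1, h2⟩ := hh (fun t : ℝ => pt c (w + t • e)) hg
  set σ : ℝ → Mat3 := fun t : ℝ => (h (pt c (w + t • e)) : Mat3) with hσ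
  have hm : ∀ t, σ t ∈ SymSp := fun t => (h (pt c (w + t • e))).2
  have hd : ∀ t, HasDerivAt σ (deriv σ t) t := fun t => (h1.differentiable (by simp) t).hasDerivAt
  have ht1 : (fun t => th1 (σ t)) = fun _ : ℝ => c := by
    funext t
    rw [hσ]
    simp only
    rw [hl, coe_pt, th1_psi]
  have ht2 : (fun t => th2 (σ t)) = fun t : ℝ => th2 (h (pt 0 (w + t • e)) : Mat3) := by
    funext t
    exact sec_const hh hl c 0 (w + t • e)
  have s1 := curve_speed hm (hd 0)
  have s2 := h2 0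
  have u1 : fderiv ℝ th1 (σ 0) (deriv σ 0) = 0 := by
    have := (hasDerivAt_th (hm 0) (hd 0)).1
    rw [ht1] at this
    exact this.unique (hasDerivAt_const 0 c)
  have u2 : fderiv ℝ th2 (σ 0) (deriv σ 0) =
      deriv (fun t : ℝ => th2 (h (pt 0 (w + t • e)) : Mat3)) 0 := by
    have := (hasDerivAt_th (hm 0) (hd 0)).2.deriv
    rw [ht2] at this
    exact this.symm
  have a1 : th1 (σ 0) = c := congrFun ht1 0
  have a2 : th2 (σ 0) = th2 (h (pt 0 w) : Mat3) := by
    have := congrFun ht2 0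
    simpa using this
  rw [u1, u2, a1, a2] at s1
  have s3 : deriv (fun t : ℝ => psi c (w + t • e)) 0 = dpsi c w 0 e := by
    have := (hasDerivAt_psi (hasDerivAt_const (0:ℝ) c) (hasDerivAt_line w e 0)).deriv
    rwa [zero_smul, add_zero] at this
  have s4 : ip (psi c w) (deriv (fun t : ℝ => psi c (w + t • e)) 0)
      (deriv (fun t : ℝ => psi c (w + t • e)) 0) = leafQ c w e := by
    rw [s3, ip_self]; simp
  have s5 : ip (σ 0) (deriv σ 0) (deriv σ 0) = ip (psi c w)
      (deriv (fun t : ℝ => psi c (w + t • e)) 0) (deriv (fun t : ℝ => psi c (w + t • e)) 0) := by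
    have e1 : psi c (w + (0:ℝ) • e) = psi c w := by rw [zero_smul, add_zero]
    rw [← e1]
    exact s2
  rw [s5, s4] at s1
  simpa using s1

end

/-- transversal parameter with prescribed `a` and `s` -/
def cas (a l : ℝ) : E2 := !₂[√2 * a, √6 * l]

lemma aC_cas (a l : ℝ) : aC (cas a l) = a := by
  have h2 : (√2 : ℝ) ≠ 0 := by positivity
  simp [aC, cas]

lemma sC_cas (a l : ℝ) : sC (cas a l) = Real.exp l := by
  have h6 : (√6 : ℝ) ≠ 0 := by positivity
  simp [sC, cas]

/-- a leaf preserving isometry preserves the coordinate `ρ` -/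
lemma rho_fixed {w w' e' : E3}
    (H : ∀ c : E2, leafQ c w (EuclideanSpace.single 0 1) = leafQ c w' e') : w 0 = w' 0 := by
  have hk : ∀ a : ℝ, Jf a (w 0) ^ 2 = Jf a (w' 0) ^ 2 * (e' 0) ^ 2 := by
    intro a
    have h1 := H (cas a 0)
    have h2 := H (cas a (Real.log 2))
    unfold leafQ at h1 h2
    rw [aC_cas, sC_cas] at h1 h2
    rw [Real.exp_zero] at h1
    rw [Real.exp_log (by norm_num)] at h2
    simp at h1 h2
    set K := (e' 1 - Xf a (w' 0) * e' 2) * (e' 1 - Xf a (w' 0) * e' 2) / Yf a (w' 0) +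
      Yf a (w' 0) * (e' 2 * e' 2) with hK
    nlinarith
  have hJ : ∀ a ρ : ℝ, Jf a ρ ^ 2 = (9 * (Real.exp (2 * a) * Real.exp (-ρ)) + 6 +
      (Real.exp (2 * a) * Real.exp (-ρ))⁻¹) / 16 := by
    intro a ρ
    have hE : Real.exp (2 * a) * Real.exp (-ρ) = Ef a ρ ^ 2 := by
      unfold Ef
      rw [← Real.exp_add, ← Real.exp_nat_mul]; congr 1; push_cast; ring
    rw [hE]
    have := (Ef_pos a ρ).ne'
    unfold Jf
    field_simp
    ring
  have hz : ∀ z : ℝ, 0 < z → 9 * (z * Real.exp (-(w 0))) + 6 + (z * Real.exp (-(w 0)))⁻¹ =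
      (9 * (z * Real.exp (-(w' 0))) + 6 + (z * Real.exp (-(w' 0)))⁻¹) * (e' 0) ^ 2 := by
    intro z hz
    have h1 := hk (Real.log z / 2)
    rw [hJ, hJ] at h1
    have h2 : Real.exp (2 * (Real.log z / 2)) = z := by
      rw [mul_div_cancel₀ _ two_ne_zero, Real.exp_log hz]
    rw [h2] at h1
    linarith
  have h1 := hz 1 one_pos
  have h2 := hz 2 two_pos
  have h4 := hz 4 (by norm_num)
  rw [mul_inv, mul_inv] at h1 h2 h4
  set p := Real.exp (-(w 0)) with hp
  set q := Real.exp (-(w' 0)) with hq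
  have hA : p = q * (e' 0) ^ 2 := by nlinarith
  have hC : p⁻¹ = q⁻¹ * (e' 0) ^ 2 := by nlinarith
  have hB : (e' 0) ^ 2 = 1 := by nlinarith
  rw [hB, mul_one] at hA
  have : -(w 0) = -(w' 0) := Real.exp_injective hA
  linarith

/-- the leaves -/
def FF : Set (Set Mat3) := {L | ∃ c : E2, L = Set.range fun w : E3 => psi c w}

/-- no group of isometries has the leaves as orbits -/
lemma not_homogeneous : ¬ IsHomogeneous FF := by
  rintro ⟨H, hiso, horb⟩
  have hl : ∀ h ∈ H, ∀ P : SymSp, th1 (h P : Mat3) = th1 (P : Mat3) := by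
    intro h hH P
    have hL : {Q : Mat3 | ∃ h ∈ H, (h P : Mat3) = Q} ∈ FF := by
      rw [horb]; exact ⟨P, rfl⟩
    obtain ⟨c, hc⟩ := hL
    have h1 : (h P : Mat3) ∈ Set.range fun w : E3 => psi c w := by
      rw [← hc]; exact ⟨h, hH, rfl⟩
    have h2 : (P : Mat3) ∈ Set.range fun w : E3 => psi c w := by
      rw [← hc]; exact ⟨1, H.one_mem, rfl⟩
    obtain ⟨w, hw⟩ := h1
    obtain ⟨w', hw'⟩ := h2
    rw [← hw, ← hw']
    simp only [th1_psi]
  have hleaf : (Set.range fun w : E3 => psi 0 w) ∈ FF := ⟨0, rfl⟩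
  rw [horb] at hleaf
  obtain ⟨P, hP⟩ := hleaf
  have m1 : psi 0 0 ∈ Set.range fun w : E3 => psi 0 w := ⟨0, rfl⟩
  have m2 : psi 0 (EuclideanSpace.single 0 1) ∈ Set.range fun w : E3 => psi 0 w := ⟨_, rfl⟩
  rw [hP] at m1 m2
  obtain ⟨h1, h1H, e1⟩ := m1
  obtain ⟨h2, h2H, e2⟩ := m2
  have f1 : ∀ h ∈ H, (th2 (h P : Mat3)) 0 = (th2 (P : Mat3)) 0 := by
    intro h hH
    obtain ⟨e', he'⟩ := leaf_speed (hiso h hH) (hl h hH) (th2 (P : Mat3))
      (EuclideanSpace.single 0 1)
    have h3 := rho_fixed he'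
    rw [h3]
    have h4 := sec_const (hiso h hH) (hl h hH) (th1 (P : Mat3)) 0 (th2 (P : Mat3))
    rw [pt_th] at h4
    rw [h4]
  have g1 := f1 h1 h1H
  have g2 := f1 h2 h2H
  rw [e1, th2_psi] at g1
  rw [e2, th2_psi, ← g1] at g2
  simp at g2

/-! ### closedness of the leaves -/

lemma isClosed_SymSp : IsClosed SymSp := by
  have e : SymSp = {P : Mat3 | P.IsHermitian} ∩ (⋂ x : Fin 3 → ℝ, {P : Mat3 | 0 ≤ star x ⬝ᵥ (P *ᵥ x)}) ∩
      {P : Mat3 | P.det = 1} := by
    ext P
    simp only [SymSp, Set.mem_ofPred_eq, Set.mem_inter_iff, Set.mem_iInter]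
    constructor
    · rintro ⟨h1, h2⟩
      exact ⟨(Matrix.posSemidef_iff_dotProduct_mulVec.1 h1.posSemidef), h2⟩
    · rintro ⟨h1, h2⟩
      refine ⟨?_, h2⟩
      have := Matrix.posSemidef_iff_dotProduct_mulVec.2 h1
      exact this.posDef_iff_det_ne_zero.2 (by rw [h2]; exact one_ne_zero)
  rw [e]
  have hid : Continuous (fun P : Mat3 => P) := continuous_id
  refine (IsClosed.inter ?_ (isClosed_iInter fun x => ?_)).inter ?_
  · exact isClosed_eq hid.matrix_conjTranspose hid
  · exact isClosed_le continuous_const (continuous_const.dotProduct (hid.matrix_mulVec continuous_const))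
  · exact isClosed_eq hid.matrix_det continuous_const

lemma leaf_eq (c : E2) : (Set.range fun w : E3 => psi c w) = SymSp ∩ th1 ⁻¹' {c} := by
  ext P
  constructor
  · rintro ⟨w, rfl⟩
    exact ⟨psi_mem c w, th1_psi c w⟩
  · rintro ⟨h1, h2⟩
    rw [Set.mem_preimage, Set.mem_singleton_iff] at h2
    exact ⟨th2 P, by simp only; rw [← h2]; exact psi_th h1⟩

lemma leaf_closed (c : E2) : IsClosed (Set.range fun w : E3 => psi c w) := by
  rw [leaf_eq]
  apply ContinuousOn.preimage_isClosed_of_isClosed _ isClosed_SymSp isClosed_singleton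
  intro P hP
  exact (contDiffAt_th1 hP).continuousAt.continuousWithinAt

end Pool.Agent.TH625.HP
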