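import Pool.Agent.TH625.HP.Inh

/-! The foliation is a hyperpolar Riemannian foliation. -/

set_option autoImplicit false

open Matrix
open scoped Matrix.Norms.Elementwise ContDiff

noncomputable section

namespace Pool.Agent.TH625.HP

lemma mem_leaf {c : E2} {P : Mat3} (h : P ∈ Set.range fun w : E3 => psi c w) :
    P ∈ SymSp ∧ th1 P = c := by
  obtain ⟨w, rfl⟩ := h
  exact ⟨psi_mem c w, th1_psi c w⟩

lemma tangent_leaf {c : E2} {w : E3} {X : Mat3} :
    TangentTo (Set.range fun w : E3 => psi c w) (psi c w) X ↔ ∃ e : E3, X = dpsi c w 0 e := by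
  constructor
  · rintro ⟨γ, h1, h2, h3, rfl⟩
    have hm : ∀ t, γ t ∈ SymSp := fun t => (mem_leaf (h2 t)).1
    have hd : HasDerivAt γ (deriv γ 0) 0 := (h1.differentiable (by simp) 0).hasDerivAt
    have h4 := curve_deriv hm hd
    have h5 : fderiv ℝ th1 (γ 0) (deriv γ 0) = 0 := by
      have h6 := (hasDerivAt_th (hm 0) hd).1
      have h7 : (fun s => th1 (γ s)) = fun _ => c := by
        funext s; exact (mem_leaf (h2 s)).2
      rw [h7] at h6
      exact h6.unique (hasDerivAt_const 0 c)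
    rw [h5, h3, th1_psi, th2_psi] at h4
    exact ⟨_, h4⟩
  · rintro ⟨e, rfl⟩
    refine ⟨fun t : ℝ => psi c (w + t • e), ?_, fun t => ⟨_, rfl⟩, by simp, ?_⟩
    · have h1 : ContDiff ℝ ∞ (fun t : ℝ => ((c, w + t • e) : E2 × E3)) := by fun_prop
      exact contDiff_psi.comp h1
    · have := (hasDerivAt_psi (hasDerivAt_const (0:ℝ) c) (hasDerivAt_line w e 0)).deriv
      rwa [zero_smul, add_zero] at this

lemma tangent_all {c : E2} {w : E3} {X : Mat3} (h : TangentTo SymSp (psi c w) X) :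
    ∃ (u : E2) (e : E3), X = dpsi c w u e := by
  obtain ⟨γ, h1, h2, h3, rfl⟩ := h
  have hd : HasDerivAt γ (deriv γ 0) 0 := (h1.differentiable (by simp) 0).hasDerivAt
  have h4 := curve_deriv h2 hd
  rw [h3, th1_psi, th2_psi] at h4
  exact ⟨_, _, h4⟩

lemma normal_iff {c : E2} {w : E3} {u : E2} {e : E3} :
    NormalTo (Set.range fun w : E3 => psi c w) (psi c w) (dpsi c w u e) ↔ e = 0 := by
  constructor
  · intro h
    have := h (dpsi c w 0 e) (tangent_leaf.2 ⟨e, rfl⟩)
    rw [ip_leaf] at this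
    exact leafQ_zero this
  · rintro rfl Y hY
    obtain ⟨e', rfl⟩ := tangent_leaf.1 hY
    exact ip_perp c w u e'

/-- a vector field tangent to the leaves -/
def VF (e : E3) (Q : Mat3) : Mat3 :=
  fderiv ℝ (fun z : E2 × E3 => psi z.1 z.2) (th1 Q, th2 Q) (0, e)

lemma VF_eq (e : E3) (Q : Mat3) : VF e Q = dpsi (th1 Q) (th2 Q) 0 e := fderiv_psi _ _ _ _

lemma VF_smooth (e : E3) {Q : Mat3} (h : Q ∈ SymSp) : ContDiffAt ℝ ∞ (VF e) Q := by
  have h1 : ContDiff ℝ ∞ (fun p : (E2 × E3) × (E2 × E3) =>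
      (fderiv ℝ (fun z : E2 × E3 => psi z.1 z.2) p.1 : E2 × E3 →L[ℝ] Mat3) p.2) :=
    ContDiff.contDiff_fderiv_apply contDiff_psi (by simp)
  have h2 : ContDiffAt ℝ ∞ (fun Q => (((th1 Q, th2 Q), (0, e)) : (E2 × E3) × (E2 × E3))) Q :=
    ((contDiffAt_th1 h).prodMk (contDiffAt_th2 h)).prodMk contDiffAt_const
  exact h1.contDiffAt.comp Q h2

lemma fderiv_slice (c : E2) (w e : E3) : fderiv ℝ (fun w : E3 => psi c w) w e = dpsi c w 0 e := by
  have hd : DifferentiableAt ℝ (fun w : E3 => psi c w) w := by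
    have h1 : ContDiff ℝ ∞ (fun w : E3 => ((c, w) : E2 × E3)) := by fun_prop
    have h2 : ContDiff ℝ ∞ (fun w : E3 => psi c w) := contDiff_psi.comp h1
    exact h2.differentiable (by simp) w
  have hd' : HasFDerivAt (fun w : E3 => psi c w) (fderiv ℝ (fun w : E3 => psi c w) w)
      ((fun t : ℝ => w + t • e) 0) := by simpa using hd.hasFDerivAt
  have h1 := hd'.comp_hasDerivAt (0:ℝ) (hasDerivAt_line w e 0)
  have h2 := hasDerivAt_psi (hasDerivAt_const (0:ℝ) c) (hasDerivAt_line w e 0)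
  rw [zero_smul, add_zero] at h2
  exact h1.unique h2

lemma fderiv_section (c : E2) (w : E3) (u : E2) :
    fderiv ℝ (fun c : E2 => psi c w) c u = dpsi c w u 0 := by
  have hd : DifferentiableAt ℝ (fun c : E2 => psi c w) c := by
    have h1 : ContDiff ℝ ∞ (fun c : E2 => ((c, w) : E2 × E3)) := by fun_prop
    have h2 : ContDiff ℝ ∞ (fun c : E2 => psi c w) := contDiff_psi.comp h1
    exact h2.differentiable (by simp) c
  have hd' : HasFDerivAt (fun c : E2 => psi c w) (fderiv ℝ (fun c : E2 => psi c w) c)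
      ((fun t : ℝ => c + t • u) 0) := by simpa using hd.hasFDerivAt
  have h1 := hd'.comp_hasDerivAt (0:ℝ) (hasDerivAt_line c u 0)
  have h2 := hasDerivAt_psi (hasDerivAt_line c u 0) (hasDerivAt_const (0:ℝ) w)
  rw [zero_smul, add_zero] at h2
  exact h1.unique h2

lemma dpsi_add (c : E2) (w : E3) (u u' : E2) (e e' : E3) :
    dpsi c w (u - u') (e - e') = dpsi c w u e - dpsi c w u' e' := by
  rw [← fderiv_psi, ← fderiv_psi, ← fderiv_psi, ← map_sub]
  rfl

lemma riem_FF : IsRiemannianFoliation FF 3 where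
  cover := by
    ext P
    constructor
    · rintro ⟨L, ⟨c, rfl⟩, hP⟩
      exact (mem_leaf hP).1
    · intro hP
      exact ⟨_, ⟨th1 P, rfl⟩, ⟨th2 P, psi_th hP⟩⟩
  disjoint := by
    rintro L ⟨c, rfl⟩ L' ⟨c', rfl⟩ ⟨P, hP, hP'⟩
    rw [← (mem_leaf hP).2, ← (mem_leaf hP').2]
  leaf := by
    rintro L ⟨c, rfl⟩
    refine ⟨leaf_closed c, fun w => psi c w, ?_, ?_, ?_, rfl⟩
    · have h1 : ContDiff ℝ ∞ (fun w : E3 => ((c, w) : E2 × E3)) := by fun_prop
      exact contDiff_psi.comp h1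
    · intro w w' h
      have := congrArg th2 h
      simpa only [th2_psi] using this
    · intro w e e' h
      rw [fderiv_slice, fderiv_slice] at h
      have h1 : dpsi c w 0 (e - e') = 0 := by
        have := dpsi_add c w 0 0 e e'
        rw [h, sub_self, sub_self] at this
        exact this
      have h2 := ip_self c w 0 (e - e')
      rw [h1] at h2
      have h3 : leafQ c w (e - e') = 0 := by
        simp [ip] at h2
        exact h2.symm
      exact sub_eq_zero.1 (leafQ_zero h3)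
  fields := by
    rintro L ⟨c, rfl⟩ P hP X hX
    obtain ⟨w, rfl⟩ := hP
    obtain ⟨e, rfl⟩ := tangent_leaf.1 hX
    refine ⟨VF e, fun Q hQ => VF_smooth e hQ, ?_, ?_⟩
    · rintro L' ⟨c', rfl⟩ Q hQ
      obtain ⟨w', rfl⟩ := hQ
      rw [VF_eq]
      simp only [th1_psi, th2_psi]
      exact tangent_leaf.2 ⟨e, rfl⟩
    · rw [VF_eq]
      simp only [th1_psi, th2_psi]
  geodesics := by
    rintro γ hγ L ⟨c, rfl⟩ h0 hN t L' ⟨c', rfl⟩ ht
    obtain ⟨w, hw⟩ := h0
    simp only at hw
    have hp : ∀ e : E3, ip (γ 0) (deriv γ 0) (dpsi c w 0 e) = 0 := by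
      intro e
      apply hN
      rw [← hw]
      exact tangent_leaf.2 ⟨e, rfl⟩
    obtain ⟨u, hu⟩ := geod_normal hγ c w hw.symm hp
    have e1 : γ t = psi (c + t • u) w := congrFun hu t
    have e2 : deriv γ t = dpsi (c + t • u) w u 0 := by rw [hu]; exact deriv_line c w u t
    have e3 : c' = c + t • u := by
      rw [← (mem_leaf ht).2, e1, th1_psi]
    subst e3
    rw [e1, e2]
    exact normal_iff.2 rfl

lemma hyper_FF : IsHyperpolar FF 2 := by
  intro P hP
  refine ⟨fun c => psi c (th2 P), ⟨th1 P, psi_th hP⟩, ?_, fun x => psi_mem _ _, ?_, ?_, ?_, ?_, ?_⟩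
  · have h1 : ContDiff ℝ ∞ (fun c : E2 => ((c, th2 P) : E2 × E3)) := by fun_prop
    exact contDiff_psi.comp h1
  · intro x u u'
    rw [fderiv_section, fderiv_section]
    exact ip_section _ _ _ _
  · intro x y
    exact rdist_section x y (th2 P)
  · intro x u
    exact geod_line x (th2 P) u
  · rintro L ⟨c, rfl⟩
    exact ⟨psi c (th2 P), ⟨th2 P, rfl⟩, ⟨c, rfl⟩⟩
  · rintro L ⟨c, rfl⟩ x hx X hX
    have hcx : x = c := by
      have := (mem_leaf hx).2
      simpa only [th1_psi] using this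
    subst hcx
    obtain ⟨u, e, rfl⟩ := tangent_all hX
    rw [normal_iff]
    constructor
    · rintro rfl
      exact ⟨u, fderiv_section _ _ _⟩
    · rintro ⟨u', hu'⟩
      rw [fderiv_section] at hu'
      have h1 : dpsi x (th2 P) (u' - u) (0 - e) = 0 := by
        rw [dpsi_add, hu', sub_self]
      have h2 := ip_self x (th2 P) (u' - u) (0 - e)
      rw [h1] at h2
      have h3 : leafQ x (th2 P) (0 - e) = 0 := by
        have h4 := leafQ_nonneg x (th2 P) (0 - e)
        have h5 := sq_nonneg ‖u' - u‖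
        simp only [ip, Matrix.mul_zero, Matrix.trace_zero] at h2
        linarith
      have := leafQ_zero h3
      simpa using this

end Pool.Agent.TH625.HP
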