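import Pool.Agent.TH625.HP.Alg

/-! The parametrisation of the symmetric space, its derivative and the metric in it. -/

set_option autoImplicit false

open Matrix
open scoped Matrix.Norms.Elementwise ContDiff

noncomputable section

namespace Pool.Agent.TH625.HP

lemma hasDerivAt_mat {f : ℝ → Mat3} {f' : Mat3} {t : ℝ}
    (h : ∀ i j, HasDerivAt (fun s => f s i j) (f' i j) t) : HasDerivAt f f' t := by
  refine hasDerivAt_pi.2 fun i => ?_
  exact hasDerivAt_pi.2 fun j => h i j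

lemma contDiff_mat {E : Type*} [NormedAddCommGroup E] [NormedSpace ℝ E] {n : ℕ∞ω} {f : E → Mat3}
    (h : ∀ i j, ContDiff ℝ n (fun s => f s i j)) : ContDiff ℝ n f := by
  refine contDiff_pi.2 fun i => ?_
  exact contDiff_pi.2 fun j => h i j

lemma contDiff_entry {E : Type*} [NormedAddCommGroup E] [NormedSpace ℝ E] {n : ℕ∞ω} {f : E → Mat3}
    (h : ContDiff ℝ n f) (i j : Fin 3) : ContDiff ℝ n (fun s => f s i j) := by
  have h1 := contDiff_pi.1 h i
  exact contDiff_pi.1 h1 j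

lemma hasDerivAt_Pm {x y s v1 v2 : ℝ → ℝ} {dx dy ds d1 d2 t : ℝ} (hx : HasDerivAt x dx t)
    (hy : HasDerivAt y dy t) (hs : HasDerivAt s ds t) (h1 : HasDerivAt v1 d1 t)
    (h2 : HasDerivAt v2 d2 t) (hy0 : y t ≠ 0) (hs0 : s t ≠ 0) :
    HasDerivAt (fun t => Pm (x t) (y t) (s t) (v1 t) (v2 t))
      (dPm (x t) (y t) (s t) (v1 t) (v2 t) dx dy ds d1 d2) t := by
  have hs2 : s t ^ 2 ≠ 0 := pow_ne_zero 2 hs0
  have e00 := (hs.mul (hy.add ((hx.pow 2).div hy hy0))).add ((h1.pow 2).div (hs.pow 2) hs2)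
  have e01 := (hs.mul (hx.div hy hy0)).add ((h1.mul h2).div (hs.pow 2) hs2)
  have e02 := h1.div (hs.pow 2) hs2
  have e11 := (hs.div hy hy0).add ((h2.pow 2).div (hs.pow 2) hs2)
  have e12 := h2.div (hs.pow 2) hs2
  apply hasDerivAt_mat
  intro i j
  fin_cases i <;> fin_cases j <;>
    simp [Pm, dPm, Um, Matrix.mul_apply, Fin.sum_univ_three, Matrix.transpose_apply]
  · refine e00.congr_deriv ?_
    simp; field_simp; ring
  · refine e01.congr_deriv ?_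
    simp; field_simp; ring
  · refine e02.congr_deriv ?_
    simp; field_simp; ring
  · refine e01.congr_deriv ?_
    simp; field_simp; ring
  · refine e11.congr_deriv ?_
    simp; field_simp; ring
  · refine e12.congr_deriv ?_
    simp; field_simp; ring
  · refine e02.congr_deriv ?_
    simp; field_simp; ring
  · refine e12.congr_deriv ?_
    simp; field_simp; ring
  · refine ((hs.pow 2).inv hs2).congr_deriv ?_
    simp; field_simp

/-! ### the hyperbolic plane coordinates -/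

/-- the parameter `E = exp (a - ρ / 2)` -/
def Ef (a ρ : ℝ) : ℝ := Real.exp (a - ρ / 2)

/-- first coordinate in the upper half plane -/
def Xf (a ρ : ℝ) : ℝ := Real.exp ρ * (3 * Ef a ρ ^ 2 - 1) / (Ef a ρ ^ 2 + 1)

/-- second coordinate in the upper half plane -/
def Yf (a ρ : ℝ) : ℝ := 4 * Real.exp ρ * Ef a ρ / (Ef a ρ ^ 2 + 1)

/-- the length density of the leaves -/
def Jf (a ρ : ℝ) : ℝ := (3 * Ef a ρ + (Ef a ρ)⁻¹) / 4

lemma Ef_pos (a ρ : ℝ) : 0 < Ef a ρ := Real.exp_pos _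

lemma Ef1_pos (a ρ : ℝ) : 0 < Ef a ρ ^ 2 + 1 := by positivity

lemma Yf_pos (a ρ : ℝ) : 0 < Yf a ρ :=
  div_pos (mul_pos (mul_pos (by norm_num) (Real.exp_pos _)) (Ef_pos _ _)) (Ef1_pos _ _)

lemma Jf_pos (a ρ : ℝ) : 0 < Jf a ρ := by
  have := Ef_pos a ρ
  unfold Jf; positivity

/-- partial derivatives -/
def Xa (a ρ : ℝ) : ℝ := 8 * Real.exp ρ * Ef a ρ ^ 2 / (Ef a ρ ^ 2 + 1) ^ 2
/-- partial derivatives -/
def Ya (a ρ : ℝ) : ℝ := 4 * Real.exp ρ * Ef a ρ * (1 - Ef a ρ ^ 2) / (Ef a ρ ^ 2 + 1) ^ 2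
/-- partial derivatives -/
def Xr (a ρ : ℝ) : ℝ := Xf a ρ - Xa a ρ / 2
/-- partial derivatives -/
def Yr (a ρ : ℝ) : ℝ := Yf a ρ - Ya a ρ / 2

lemma hasDerivAt_Ef {a ρ : ℝ → ℝ} {a' ρ' t : ℝ} (ha : HasDerivAt a a' t) (hρ : HasDerivAt ρ ρ' t) :
    HasDerivAt (fun t => Ef (a t) (ρ t)) (Ef (a t) (ρ t) * (a' - ρ' / 2)) t :=
  (ha.sub (hρ.div_const 2)).exp

lemma hasDerivAt_Xf {a ρ : ℝ → ℝ} {a' ρ' t : ℝ} (ha : HasDerivAt a a' t) (hρ : HasDerivAt ρ ρ' t) :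
    HasDerivAt (fun t => Xf (a t) (ρ t)) (Xa (a t) (ρ t) * a' + Xr (a t) (ρ t) * ρ') t := by
  have hE := hasDerivAt_Ef ha hρ
  have h := (hρ.exp.mul (((hE.pow 2).const_mul 3).sub_const 1)).div ((hE.pow 2).add_const 1)
    (Ef1_pos _ _).ne'
  refine h.congr_deriv ?_
  have := (Ef1_pos (a t) (ρ t)).ne'
  simp only [Xa, Xr, Xf, Pi.mul_apply, Pi.pow_apply, Nat.cast_ofNat]
  field_simp
  ring

lemma hasDerivAt_Yf {a ρ : ℝ → ℝ} {a' ρ' t : ℝ} (ha : HasDerivAt a a' t) (hρ : HasDerivAt ρ ρ' t) :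
    HasDerivAt (fun t => Yf (a t) (ρ t)) (Ya (a t) (ρ t) * a' + Yr (a t) (ρ t) * ρ') t := by
  have hE := hasDerivAt_Ef ha hρ
  have h := ((hρ.exp.const_mul 4).mul hE).div ((hE.pow 2).add_const 1)
    (Ef1_pos _ _).ne'
  refine h.congr_deriv ?_
  have := (Ef1_pos (a t) (ρ t)).ne'
  simp only [Ya, Yr, Yf, Pi.mul_apply, Pi.pow_apply, Nat.cast_ofNat]
  field_simp
  ring

lemma metric_aa (a ρ : ℝ) : Xa a ρ ^ 2 + Ya a ρ ^ 2 = Yf a ρ ^ 2 := by
  have := (Ef1_pos a ρ).ne'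
  simp only [Xa, Ya, Yf]
  field_simp
  ring

lemma metric_ar (a ρ : ℝ) : Xa a ρ * Xr a ρ + Ya a ρ * Yr a ρ = 0 := by
  have := (Ef1_pos a ρ).ne'
  simp only [Xa, Ya, Yf, Xr, Yr, Xf]
  field_simp
  ring

lemma metric_rr (a ρ : ℝ) : Xr a ρ ^ 2 + Yr a ρ ^ 2 = Jf a ρ ^ 2 * Yf a ρ ^ 2 := by
  have := (Ef1_pos a ρ).ne'
  have := (Ef_pos a ρ).ne'
  simp only [Xa, Ya, Yf, Xr, Yr, Xf, Jf]
  field_simp
  ring

/-! ### the parametrisation -/

/-- the transversal (section) parameters -/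
abbrev E2 : Type := EuclideanSpace ℝ (Fin 2)
/-- the leaf parameters -/
abbrev E3 : Type := EuclideanSpace ℝ (Fin 3)

/-- the parameter along the geodesics of the hyperbolic plane -/
def aC (c : E2) : ℝ := c 0 / √2
/-- the scale parameter -/
def sC (c : E2) : ℝ := Real.exp (c 1 / √6)

lemma sC_pos (c : E2) : 0 < sC c := Real.exp_pos _

/-- the global parametrisation of the symmetric space -/
def psi (c : E2) (w : E3) : Mat3 := Pm (Xf (aC c) (w 0)) (Yf (aC c) (w 0)) (sC c) (w 1) (w 2)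

/-- its derivative -/
def dpsi (c : E2) (w : E3) (u : E2) (e : E3) : Mat3 :=
  dPm (Xf (aC c) (w 0)) (Yf (aC c) (w 0)) (sC c) (w 1) (w 2)
    (Xa (aC c) (w 0) * aC u + Xr (aC c) (w 0) * e 0)
    (Ya (aC c) (w 0) * aC u + Yr (aC c) (w 0) * e 0)
    (sC c * (u 1 / √6)) (e 1) (e 2)

lemma psi_mem (c : E2) (w : E3) : psi c w ∈ SymSp := Pm_mem (Yf_pos _ _) (sC_pos c)

lemma hasDerivAt_coord {n : ℕ} {f : ℝ → EuclideanSpace ℝ (Fin n)} {f' : EuclideanSpace ℝ (Fin n)}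
    {t : ℝ} (h : HasDerivAt f f' t) (i : Fin n) : HasDerivAt (fun s => f s i) (f' i) t := by
  exact (EuclideanSpace.proj i : EuclideanSpace ℝ (Fin n) →L[ℝ] ℝ).hasFDerivAt.comp_hasDerivAt t h

lemma hasDerivAt_psi {c : ℝ → E2} {w : ℝ → E3} {u : E2} {e : E3} {t : ℝ} (hc : HasDerivAt c u t)
    (hw : HasDerivAt w e t) :
    HasDerivAt (fun s => psi (c s) (w s)) (dpsi (c t) (w t) u e) t := by
  have hc0 := (hasDerivAt_coord hc 0).div_const (√2)
  have hc1 := ((hasDerivAt_coord hc 1).div_const (√6)).exp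
  have h0 := hasDerivAt_coord hw 0
  have h1 := hasDerivAt_coord hw 1
  have h2 := hasDerivAt_coord hw 2
  exact hasDerivAt_Pm (hasDerivAt_Xf hc0 h0) (hasDerivAt_Yf hc0 h0) hc1 h1 h2 (Yf_pos _ _).ne'
    (sC_pos _).ne'

/-- the metric in the parametrisation -/
lemma ip_dpsi (c : E2) (w : E3) (u u' : E2) (e e' : E3) :
    ip (psi c w) (dpsi c w u e) (dpsi c w u' e') =
      u 0 * u' 0 + u 1 * u' 1 + 2 * Jf (aC c) (w 0) ^ 2 * (e 0 * e' 0) +
      2 / sC c ^ 3 * ((e 1 - Xf (aC c) (w 0) * e 2) * (e' 1 - Xf (aC c) (w 0) * e' 2) /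
        Yf (aC c) (w 0) + Yf (aC c) (w 0) * (e 2 * e' 2)) := by
  unfold psi dpsi
  rw [ip_Pm (Yf_pos _ _).ne' (sC_pos c).ne']
  have haa := metric_aa (aC c) (w 0)
  have har := metric_ar (aC c) (w 0)
  have hrr := metric_rr (aC c) (w 0)
  have hs := (sC_pos c).ne'
  have hy := (Yf_pos (aC c) (w 0)).ne'
  have h2 : (√2 : ℝ) ^ 2 = 2 := Real.sq_sqrt (by norm_num)
  have h6 : (√6 : ℝ) ^ 2 = 6 := Real.sq_sqrt (by norm_num)
  have p2 : (√2 : ℝ) ≠ 0 := by positivity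
  have p6 : (√6 : ℝ) ≠ 0 := by positivity
  have e1 : 6 * (sC c * (u 1 / √6) * (sC c * (u' 1 / √6))) / sC c ^ 2 = u 1 * u' 1 := by
    field_simp
    rw [h6]; ring
  have e2 : aC u * aC u' = u 0 * u' 0 / 2 := by
    unfold aC
    field_simp
    rw [h2]; ring
  have e3 : (Xa (aC c) (w 0) * aC u + Xr (aC c) (w 0) * e 0) *
        (Xa (aC c) (w 0) * aC u' + Xr (aC c) (w 0) * e' 0) +
      (Ya (aC c) (w 0) * aC u + Yr (aC c) (w 0) * e 0) *
        (Ya (aC c) (w 0) * aC u' + Yr (aC c) (w 0) * e' 0) =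
      (u 0 * u' 0 / 2 + Jf (aC c) (w 0) ^ 2 * (e 0 * e' 0)) * Yf (aC c) (w 0) ^ 2 := by
    rw [← e2]
    linear_combination (aC u * aC u') * haa + (aC u * e' 0 + e 0 * aC u') * har +
      (e 0 * e' 0) * hrr
  rw [e1, e3]
  have e4 : 2 * ((u 0 * u' 0 / 2 + Jf (aC c) (w 0) ^ 2 * (e 0 * e' 0)) * Yf (aC c) (w 0) ^ 2) /
      Yf (aC c) (w 0) ^ 2 = u 0 * u' 0 + 2 * Jf (aC c) (w 0) ^ 2 * (e 0 * e' 0) := by
    field_simp
  rw [e4]
  ring

/-- positivity of the leaf part -/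
lemma leaf_nonneg (c : E2) (w e : E3) :
    0 ≤ 2 * Jf (aC c) (w 0) ^ 2 * (e 0 * e 0) +
      2 / sC c ^ 3 * ((e 1 - Xf (aC c) (w 0) * e 2) * (e 1 - Xf (aC c) (w 0) * e 2) /
        Yf (aC c) (w 0) + Yf (aC c) (w 0) * (e 2 * e 2)) := by
  have hs := sC_pos c
  have hy := Yf_pos (aC c) (w 0)
  have h1 := mul_self_nonneg (e 1 - Xf (aC c) (w 0) * e 2)
  have h2 := mul_self_nonneg (e 2)
  have h3 := mul_self_nonneg (e 0)
  positivity

lemma leaf_zero (c : E2) (w e : E3)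
    (h : 2 * Jf (aC c) (w 0) ^ 2 * (e 0 * e 0) +
      2 / sC c ^ 3 * ((e 1 - Xf (aC c) (w 0) * e 2) * (e 1 - Xf (aC c) (w 0) * e 2) /
        Yf (aC c) (w 0) + Yf (aC c) (w 0) * (e 2 * e 2)) = 0) : e = 0 := by
  have hs := sC_pos c
  have hy := Yf_pos (aC c) (w 0)
  have hJ := Jf_pos (aC c) (w 0)
  have h1 := mul_self_nonneg (e 1 - Xf (aC c) (w 0) * e 2)
  have h2 := mul_self_nonneg (e 2)
  have h3 := mul_self_nonneg (e 0)
  have a1 : 0 ≤ 2 * Jf (aC c) (w 0) ^ 2 * (e 0 * e 0) := by positivity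
  have a2 : 0 ≤ (e 1 - Xf (aC c) (w 0) * e 2) * (e 1 - Xf (aC c) (w 0) * e 2) /
        Yf (aC c) (w 0) := by positivity
  have a3 : 0 ≤ Yf (aC c) (w 0) * (e 2 * e 2) := by positivity
  have a4 : 0 < 2 / sC c ^ 3 := by positivity
  have b0 : 2 * Jf (aC c) (w 0) ^ 2 * (e 0 * e 0) = 0 := by nlinarith [mul_nonneg a4.le (add_nonneg a2 a3)]
  have b1 : (e 1 - Xf (aC c) (w 0) * e 2) * (e 1 - Xf (aC c) (w 0) * e 2) /
        Yf (aC c) (w 0) + Yf (aC c) (w 0) * (e 2 * e 2) = 0 := by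
    rw [b0, zero_add] at h
    rcases mul_eq_zero.1 h with h | h
    · exact absurd h a4.ne'
    · exact h
  have b2 : Yf (aC c) (w 0) * (e 2 * e 2) = 0 := by linarith
  have b3 : (e 1 - Xf (aC c) (w 0) * e 2) * (e 1 - Xf (aC c) (w 0) * e 2) /
        Yf (aC c) (w 0) = 0 := by linarith
  have c2 : e 2 = 0 := by
    rcases mul_eq_zero.1 b2 with h | h
    · exact absurd h hy.ne'
    · exact mul_self_eq_zero.1 h
  have c0 : e 0 = 0 := by
    rcases mul_eq_zero.1 b0 with h | h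
    · exact absurd h (by positivity)
    · exact mul_self_eq_zero.1 h
  have c1 : e 1 = 0 := by
    rw [c2, mul_zero, sub_zero, div_eq_zero_iff] at b3
    rcases b3 with h | h
    · exact mul_self_eq_zero.1 h
    · exact absurd h hy.ne'
  ext i
  fin_cases i
  · simpa using c0
  · simpa using c1
  · simpa using c2

lemma contDiff_Ef : ContDiff ℝ ∞ (fun z : ℝ × ℝ => Ef z.1 z.2) := by
  unfold Ef; fun_prop

lemma contDiff_Xf : ContDiff ℝ ∞ (fun z : ℝ × ℝ => Xf z.1 z.2) := by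
  unfold Xf
  have := contDiff_Ef
  apply ContDiff.div
  · fun_prop
  · fun_prop
  · intro z; exact (Ef1_pos _ _).ne'

lemma contDiff_Yf : ContDiff ℝ ∞ (fun z : ℝ × ℝ => Yf z.1 z.2) := by
  unfold Yf
  have := contDiff_Ef
  apply ContDiff.div
  · fun_prop
  · fun_prop
  · intro z; exact (Ef1_pos _ _).ne'

lemma contDiff_psi : ContDiff ℝ ∞ (fun z : E2 × E3 => psi z.1 z.2) := by
  have ha : ContDiff ℝ ∞ (fun z : E2 × E3 => aC z.1) := by unfold aC; fun_prop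
  have hs : ContDiff ℝ ∞ (fun z : E2 × E3 => sC z.1) := by unfold sC; fun_prop
  have hw : ∀ i, ContDiff ℝ ∞ (fun z : E2 × E3 => z.2 i) := by intro i; fun_prop
  have hx : ContDiff ℝ ∞ (fun z : E2 × E3 => Xf (aC z.1) (z.2 0)) :=
    contDiff_Xf.comp (ha.prodMk (hw 0))
  have hy : ContDiff ℝ ∞ (fun z : E2 × E3 => Yf (aC z.1) (z.2 0)) :=
    contDiff_Yf.comp (ha.prodMk (hw 0))
  have h1 := hw 1
  have h2 := hw 2
  have y0 : ∀ z : E2 × E3, Yf (aC z.1) (z.2 0) ≠ 0 := fun z => (Yf_pos _ _).ne'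
  have s0 : ∀ z : E2 × E3, sC z.1 ^ 2 ≠ 0 := fun z => pow_ne_zero 2 (sC_pos _).ne'
  apply contDiff_mat
  have e00 := (hs.mul (hy.add ((hx.pow 2).div hy y0))).add ((h1.pow 2).div (hs.pow 2) s0)
  have e01 := (hs.mul (hx.div hy y0)).add ((h1.mul h2).div (hs.pow 2) s0)
  have e02 := h1.div (hs.pow 2) s0
  have e11 := (hs.div hy y0).add ((h2.pow 2).div (hs.pow 2) s0)
  have e12 := h2.div (hs.pow 2) s0
  have e22 := (contDiff_const (c := (1:ℝ))).div (hs.pow 2) s0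
  intro i j
  fin_cases i <;> fin_cases j
  · exact e00
  · exact e01
  · exact e02
  · exact e01
  · exact e11
  · exact e12
  · exact e02
  · exact e12
  · exact e22

lemma fderiv_psi (c : E2) (w : E3) (u : E2) (e : E3) :
    fderiv ℝ (fun z : E2 × E3 => psi z.1 z.2) (c, w) (u, e) = dpsi c w u e := by
  have hd : HasFDerivAt (fun z : E2 × E3 => psi z.1 z.2)
      (fderiv ℝ (fun z : E2 × E3 => psi z.1 z.2) (c, w)) (c, w) :=
    (contDiff_psi.differentiable (by simp)).differentiableAt.hasFDerivAt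
  have hl : HasDerivAt (fun t : ℝ => ((c + t • u, w + t • e) : E2 × E3)) (u, e) 0 := by
    have h1 : HasDerivAt (fun t : ℝ => c + t • u) u 0 := by
      simpa using ((hasDerivAt_id (0:ℝ)).smul_const u).const_add c
    have h2 : HasDerivAt (fun t : ℝ => w + t • e) e 0 := by
      simpa using ((hasDerivAt_id (0:ℝ)).smul_const e).const_add w
    exact h1.prodMk h2
  have h1 : HasDerivAt (fun t : ℝ => psi (c + t • u) (w + t • e))
      (fderiv ℝ (fun z : E2 × E3 => psi z.1 z.2) (c, w) (u, e)) 0 := by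
    have hd' : HasFDerivAt (fun z : E2 × E3 => psi z.1 z.2)
      (fderiv ℝ (fun z : E2 × E3 => psi z.1 z.2) (c, w))
      ((fun t : ℝ => ((c + t • u, w + t • e) : E2 × E3)) 0) := by simpa using hd
    exact hd'.comp_hasDerivAt 0 hl
  have h2 : HasDerivAt (fun t : ℝ => psi (c + t • u) (w + t • e)) (dpsi c w u e) 0 := by
    have h1 : HasDerivAt (fun t : ℝ => c + t • u) u 0 := by
      simpa using ((hasDerivAt_id (0:ℝ)).smul_const u).const_add c
    have h2 : HasDerivAt (fun t : ℝ => w + t • e) e 0 := by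
      simpa using ((hasDerivAt_id (0:ℝ)).smul_const e).const_add w
    simpa using hasDerivAt_psi h1 h2
  exact h1.unique h2

end Pool.Agent.TH625.HP
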