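import Pool.Agent.TH625.HP.Psi

/-! The inverse of the parametrisation. -/

set_option autoImplicit false

open Matrix
open scoped Matrix.Norms.Elementwise ContDiff

noncomputable section

namespace Pool.Agent.TH625.HP

/-- coordinate functions -/
def dF (P : Mat3) : ℝ := P 1 1 - P 1 2 ^ 2 / P 2 2
/-- coordinate functions -/
def sF (P : Mat3) : ℝ := (√(P 2 2))⁻¹
/-- coordinate functions -/
def v1F (P : Mat3) : ℝ := P 0 2 / P 2 2
/-- coordinate functions -/
def v2F (P : Mat3) : ℝ := P 1 2 / P 2 2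
/-- coordinate functions -/
def yF (P : Mat3) : ℝ := sF P / dF P
/-- coordinate functions -/
def xF (P : Mat3) : ℝ := (P 0 1 - P 0 2 * P 1 2 / P 2 2) / dF P
/-- coordinate functions -/
def rH (x y : ℝ) : ℝ := (-x + √(4 * x ^ 2 + 3 * y ^ 2)) / 3
/-- coordinate functions -/
def rF (P : Mat3) : ℝ := rH (xF P) (yF P)
/-- coordinate functions -/
def EF (P : Mat3) : ℝ := (xF P + rF P) / yF P
/-- coordinate functions -/
def rhoF (P : Mat3) : ℝ := Real.log (rF P)
/-- coordinate functions -/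
def aF (P : Mat3) : ℝ := Real.log (EF P) + rhoF P / 2

/-- section parameters of a point -/
def th1 (P : Mat3) : E2 := !₂[√2 * aF P, √6 * Real.log (sF P)]
/-- leaf parameters of a point -/
def th2 (P : Mat3) : E3 := !₂[rhoF P, v1F P, v2F P]

/-! ### half plane -/

lemma sqrt_gt {x y : ℝ} (hy : 0 < y) : 2 * |x| < √(4 * x ^ 2 + 3 * y ^ 2) := by
  apply Real.lt_sqrt_of_sq_lt
  rw [mul_pow, sq_abs]
  nlinarith [pow_pos hy 2]

lemma rH_pos {x y : ℝ} (hy : 0 < y) : 0 < rH x y := by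
  have h := sqrt_gt (x := x) hy
  have h1 := le_abs_self x
  have h2 := abs_nonneg x
  unfold rH
  linarith

lemma rH_add_pos {x y : ℝ} (hy : 0 < y) : 0 < x + rH x y := by
  have h := sqrt_gt (x := x) hy
  have h1 := neg_abs_le x
  unfold rH
  linarith

lemma rH_eq (x y : ℝ) : 3 * rH x y ^ 2 + 2 * x * rH x y = x ^ 2 + y ^ 2 := by
  have h : √(4 * x ^ 2 + 3 * y ^ 2) ^ 2 = 4 * x ^ 2 + 3 * y ^ 2 := Real.sq_sqrt (by positivity)
  unfold rH
  nlinarith

/-- the half plane point is recovered -/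
lemma XY_of_half {x y : ℝ} (hy : 0 < y) :
    Xf (Real.log ((x + rH x y) / y) + Real.log (rH x y) / 2) (Real.log (rH x y)) = x ∧
    Yf (Real.log ((x + rH x y) / y) + Real.log (rH x y) / 2) (Real.log (rH x y)) = y := by
  have hr := rH_pos (x := x) hy
  have hxr := rH_add_pos (x := x) hy
  have heq := rH_eq x y
  have hE : Ef (Real.log ((x + rH x y) / y) + Real.log (rH x y) / 2) (Real.log (rH x y)) =
      (x + rH x y) / y := by
    unfold Ef
    rw [add_sub_cancel_right, Real.exp_log (div_pos hxr hy)]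
  unfold Xf Yf
  rw [hE, Real.exp_log hr]
  set r := rH x y with hrdef
  have hpos : 0 < (x + r) ^ 2 + y ^ 2 := by positivity
  constructor
  · rw [div_eq_iff (by positivity)]
    field_simp
    nlinarith
  · rw [div_eq_iff (by positivity)]
    field_simp
    nlinarith

lemma rH_XY (a ρ : ℝ) : rH (Xf a ρ) (Yf a ρ) = Real.exp ρ := by
  have hE := Ef_pos a ρ
  have hE1 := Ef1_pos a ρ
  have hr := Real.exp_pos ρ
  have h : √(4 * Xf a ρ ^ 2 + 3 * Yf a ρ ^ 2) =
      2 * Real.exp ρ * (3 * Ef a ρ ^ 2 + 1) / (Ef a ρ ^ 2 + 1) := by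
    rw [Real.sqrt_eq_iff_mul_self_eq (by positivity) (by positivity)]
    unfold Xf Yf
    field_simp
    ring
  unfold rH
  rw [h]
  unfold Xf
  field_simp
  ring

lemma E_XY (a ρ : ℝ) : (Xf a ρ + rH (Xf a ρ) (Yf a ρ)) / Yf a ρ = Ef a ρ := by
  have hE := Ef_pos a ρ
  have hE1 := Ef1_pos a ρ
  have hr := Real.exp_pos ρ
  rw [rH_XY]
  unfold Xf Yf
  field_simp
  ring

/-! ### left inverse -/

lemma sF_Pm {x y s v1 v2 : ℝ} (hs : 0 < s) : sF (Pm x y s v1 v2) = s := by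
  have : Pm x y s v1 v2 2 2 = (1 / s) ^ 2 := by simp [Pm]
  unfold sF
  rw [this, Real.sqrt_sq (by positivity)]
  simp

lemma v1F_Pm {x y s v1 v2 : ℝ} (hs : 0 < s) : v1F (Pm x y s v1 v2) = v1 := by
  simp [v1F, Pm]
  field_simp

lemma v2F_Pm {x y s v1 v2 : ℝ} (hs : 0 < s) : v2F (Pm x y s v1 v2) = v2 := by
  simp [v2F, Pm]
  field_simp

lemma dF_Pm {x y s v1 v2 : ℝ} (hs : 0 < s) : dF (Pm x y s v1 v2) = s / y := by
  simp [dF, Pm]
  field_simp
  ring

lemma yF_Pm {x y s v1 v2 : ℝ} (hs : 0 < s) : yF (Pm x y s v1 v2) = y := by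
  unfold yF
  rw [sF_Pm hs, dF_Pm hs, div_div_eq_mul_div, mul_div_cancel_left₀ _ hs.ne']

lemma xF_Pm {x y s v1 v2 : ℝ} (hy : 0 < y) (hs : 0 < s) : xF (Pm x y s v1 v2) = x := by
  unfold xF
  rw [dF_Pm hs]
  simp [Pm]
  field_simp
  ring

lemma th1_psi (c : E2) (w : E3) : th1 (psi c w) = c := by
  have h2 : (√2 : ℝ) ≠ 0 := by positivity
  have h6 : (√6 : ℝ) ≠ 0 := by positivity
  have ha : aF (psi c w) = aC c := by
    unfold aF rhoF EF rF psi
    rw [xF_Pm (Yf_pos _ _) (sC_pos c), yF_Pm (sC_pos c), E_XY, rH_XY, Real.log_exp]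
    unfold Ef
    rw [Real.log_exp]; ring
  have hs : Real.log (sF (psi c w)) = c 1 / √6 := by
    unfold psi
    rw [sF_Pm (sC_pos c)]
    unfold sC
    rw [Real.log_exp]
  unfold th1
  rw [ha, hs]
  unfold aC
  ext i
  fin_cases i
  · simp; field_simp
  · simp; field_simp

lemma th2_psi (c : E2) (w : E3) : th2 (psi c w) = w := by
  have ha : rhoF (psi c w) = w 0 := by
    unfold rhoF rF psi
    rw [xF_Pm (Yf_pos _ _) (sC_pos c), yF_Pm (sC_pos c), rH_XY, Real.log_exp]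
  have h1 : v1F (psi c w) = w 1 := v1F_Pm (sC_pos c)
  have h2 : v2F (psi c w) = w 2 := v2F_Pm (sC_pos c)
  unfold th2
  rw [ha, h1, h2]
  ext i
  fin_cases i <;> simp

/-! ### right inverse -/

lemma mem_sym {P : Mat3} (h : P ∈ SymSp) (i j : Fin 3) : P i j = P j i := by
  have := h.1.isHermitian.apply i j
  simpa using this.symm

lemma mem_quad {P : Mat3} (h : P ∈ SymSp) {z : Fin 3 → ℝ} (hz : z ≠ 0) :
    0 < z ⬝ᵥ (P *ᵥ z) := by
  have := h.1.dotProduct_mulVec_pos hz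
  simpa using this

lemma mem_22 {P : Mat3} (h : P ∈ SymSp) : 0 < P 2 2 := by
  have := mem_quad h (z := ![0, 0, 1]) (by intro h; simpa using congrFun h 2)
  simpa [Matrix.mulVec, dotProduct, Fin.sum_univ_three] using this

lemma mem_dF {P : Mat3} (h : P ∈ SymSp) : 0 < dF P := by
  have h22 := mem_22 h
  have := mem_quad h (z := ![0, 1, - P 1 2 / P 2 2]) (by intro h; simpa using congrFun h 1)
  simp [Matrix.mulVec, dotProduct, Fin.sum_univ_three] at this
  rw [mem_sym h 2 1] at this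
  unfold dF
  field_simp at this ⊢
  nlinarith

lemma sF_pos {P : Mat3} (h : P ∈ SymSp) : 0 < sF P := inv_pos.2 (Real.sqrt_pos.2 (mem_22 h))

lemma yF_pos {P : Mat3} (h : P ∈ SymSp) : 0 < yF P := div_pos (sF_pos h) (mem_dF h)

lemma Pm_of_mem {P : Mat3} (h : P ∈ SymSp) :
    Pm (xF P) (yF P) (sF P) (v1F P) (v2F P) = P := by
  have h22 := mem_22 h
  have hd := mem_dF h
  have hs2 : sF P ^ 2 = 1 / P 2 2 := by
    unfold sF
    rw [inv_pow, Real.sq_sqrt h22.le, one_div]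
  have hs := sF_pos h
  have hsy : sF P / yF P = dF P := by
    unfold yF; field_simp
  have hsy' : sF P * yF P = 1 / (P 2 2 * dF P) := by
    unfold yF
    rw [mul_div_assoc', ← sq, hs2]; field_simp
  have hdet := h.2
  rw [Matrix.det_fin_three] at hdet
  have e11 : sF P / yF P + v2F P ^ 2 / sF P ^ 2 = P 1 1 := by
    rw [hsy, hs2]; unfold dF v2F; field_simp; ring
  have e01 : sF P * (xF P / yF P) + v1F P * v2F P / sF P ^ 2 = P 0 1 := by
    rw [show sF P * (xF P / yF P) = (sF P / yF P) * xF P by ring, hsy, hs2]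
    unfold v1F v2F xF
    field_simp
    ring
  have e02 : v1F P / sF P ^ 2 = P 0 2 := by
    rw [hs2]; unfold v1F; field_simp
  have e12 : v2F P / sF P ^ 2 = P 1 2 := by
    rw [hs2]; unfold v2F; field_simp
  have e22 : 1 / sF P ^ 2 = P 2 2 := by
    rw [hs2]; field_simp
  have e00 : sF P * (yF P + xF P ^ 2 / yF P) + v1F P ^ 2 / sF P ^ 2 = P 0 0 := by
    rw [show sF P * (yF P + xF P ^ 2 / yF P) = sF P * yF P + (sF P / yF P) * xF P ^ 2 by ring,
      hsy, hsy', hs2]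
    rw [mem_sym h 1 0, mem_sym h 2 0, mem_sym h 2 1] at hdet
    unfold v1F xF
    have hd' : P 2 2 * dF P = P 1 1 * P 2 2 - P 1 2 ^ 2 := by
      unfold dF; field_simp
    have hne : P 1 1 * P 2 2 - P 1 2 ^ 2 ≠ 0 := by
      rw [← hd']; positivity
    have hdd : dF P = (P 1 1 * P 2 2 - P 1 2 ^ 2) / P 2 2 := by
      rw [← hd']; field_simp
    rw [hdd]
    obtain ⟨D, hD⟩ : ∃ D, D = P 1 1 * P 2 2 - P 1 2 ^ 2 := ⟨_, rfl⟩
    rw [← hD] at hne ⊢
    field_simp
    rw [hD]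
    linear_combination (-1) * P 2 2 * hdet
  ext i j
  fin_cases i <;> fin_cases j
  · exact e00
  · exact e01
  · exact e02
  · exact e01.trans (mem_sym h 0 1)
  · exact e11
  · exact e12
  · exact e02.trans (mem_sym h 0 2)
  · exact e12.trans (mem_sym h 1 2)
  · exact e22

lemma psi_th {P : Mat3} (h : P ∈ SymSp) : psi (th1 P) (th2 P) = P := by
  have h2 : (√2 : ℝ) ≠ 0 := by positivity
  have h6 : (√6 : ℝ) ≠ 0 := by positivity
  have ha : aC (th1 P) = aF P := by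
    unfold aC th1
    simp
  have hs : sC (th1 P) = sF P := by
    unfold sC th1
    simp
    exact Real.exp_log (sF_pos h)
  have h0 : (th2 P) 0 = rhoF P := by simp [th2]
  have h1 : (th2 P) 1 = v1F P := by simp [th2]
  have h2' : (th2 P) 2 = v2F P := by simp [th2]
  have hXY := XY_of_half (x := xF P) (yF_pos h)
  unfold psi
  rw [ha, hs, h0, h1, h2']
  unfold aF rhoF EF rF
  rw [hXY.1, hXY.2]
  exact Pm_of_mem h

/-! ### smoothness -/

lemma contDiff_coord (i j : Fin 3) : ContDiff ℝ ∞ (fun P : Mat3 => P i j) :=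
  contDiff_entry contDiff_id i j

lemma contDiffAt_dF {P : Mat3} (h : P ∈ SymSp) : ContDiffAt ℝ ∞ dF P :=
  (contDiff_coord 1 1).contDiffAt.sub
    (((contDiff_coord 1 2).contDiffAt.pow 2).div (contDiff_coord 2 2).contDiffAt (mem_22 h).ne')

lemma contDiffAt_sF {P : Mat3} (h : P ∈ SymSp) : ContDiffAt ℝ ∞ sF P :=
  ((contDiff_coord 2 2).contDiffAt.sqrt (mem_22 h).ne').inv (Real.sqrt_pos.2 (mem_22 h)).ne'

lemma contDiffAt_v1F {P : Mat3} (h : P ∈ SymSp) : ContDiffAt ℝ ∞ v1F P :=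
  (contDiff_coord 0 2).contDiffAt.div (contDiff_coord 2 2).contDiffAt (mem_22 h).ne'

lemma contDiffAt_v2F {P : Mat3} (h : P ∈ SymSp) : ContDiffAt ℝ ∞ v2F P :=
  (contDiff_coord 1 2).contDiffAt.div (contDiff_coord 2 2).contDiffAt (mem_22 h).ne'

lemma contDiffAt_yF {P : Mat3} (h : P ∈ SymSp) : ContDiffAt ℝ ∞ yF P :=
  (contDiffAt_sF h).div (contDiffAt_dF h) (mem_dF h).ne'

lemma contDiffAt_xF {P : Mat3} (h : P ∈ SymSp) : ContDiffAt ℝ ∞ xF P :=
  ((contDiff_coord 0 1).contDiffAt.sub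
    (((contDiff_coord 0 2).contDiffAt.mul (contDiff_coord 1 2).contDiffAt).div
      (contDiff_coord 2 2).contDiffAt (mem_22 h).ne')).div (contDiffAt_dF h) (mem_dF h).ne'

lemma contDiffAt_rF {P : Mat3} (h : P ∈ SymSp) : ContDiffAt ℝ ∞ rF P := by
  have hx := contDiffAt_xF h
  have hy := contDiffAt_yF h
  have hy0 := yF_pos h
  have h0 : 4 * xF P ^ 2 + 3 * yF P ^ 2 ≠ 0 := by positivity
  have h1 : ContDiffAt ℝ ∞ (fun P => √(4 * xF P ^ 2 + 3 * yF P ^ 2)) P :=
    ((contDiffAt_const.mul (hx.pow 2)).add (contDiffAt_const.mul (hy.pow 2))).sqrt h0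
  exact (hx.neg.add h1).div_const 3

lemma contDiffAt_EF {P : Mat3} (h : P ∈ SymSp) : ContDiffAt ℝ ∞ EF P :=
  ((contDiffAt_xF h).add (contDiffAt_rF h)).div (contDiffAt_yF h) (yF_pos h).ne'

lemma contDiffAt_rhoF {P : Mat3} (h : P ∈ SymSp) : ContDiffAt ℝ ∞ rhoF P :=
  (contDiffAt_rF h).log (rH_pos (yF_pos h)).ne'

lemma contDiffAt_aF {P : Mat3} (h : P ∈ SymSp) : ContDiffAt ℝ ∞ aF P :=
  ((contDiffAt_EF h).log (div_pos (rH_add_pos (yF_pos h)) (yF_pos h)).ne').add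
    ((contDiffAt_rhoF h).div_const 2)

lemma contDiffAt_th1 {P : Mat3} (h : P ∈ SymSp) : ContDiffAt ℝ ∞ th1 P := by
  rw [contDiffAt_euclidean]
  intro i
  fin_cases i
  · exact contDiffAt_const.mul (contDiffAt_aF h)
  · exact contDiffAt_const.mul ((contDiffAt_sF h).log (sF_pos h).ne')

lemma contDiffAt_th2 {P : Mat3} (h : P ∈ SymSp) : ContDiffAt ℝ ∞ th2 P := by
  rw [contDiffAt_euclidean]
  intro i
  fin_cases i
  · exact contDiffAt_rhoF h
  · exact contDiffAt_v1F h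
  · exact contDiffAt_v2F h

end Pool.Agent.TH625.HP
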